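import Pool.Agent.Hhelper93.KBip.Main

/-!
# The common points of two edges
-/

set_option autoImplicit false

namespace Pool.Agent.KBip

open Set
open Pool.Agent.CLow

/-- Three edges have no common point, except for a vertex. -/
theorem no_triple_point {n : ℕ} {e f g : ℕ × ℕ} (he : Ok n e) (hf : Ok n f) (hg : Ok n g)
    (hef : e ≠ f) (hfg : f ≠ g) (heg : e ≠ g) {z : ℂ} (hz : z ∈ Arc n e) (hz' : z ∈ Arc n f)
    (hz'' : z ∈ Arc n g) : z = sp n e.1 ∨ z = ep n e.2 := by
  obtain ⟨s, hs, rfl⟩ := hz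
  obtain ⟨u, rfl⟩ := exists_ang n s
  simp only [Set.mem_Icc, ang_le] at hs
  obtain ⟨k, hk1, hk2, hpl⟩ := common hz'
  obtain ⟨l, hl1, hl2, hpl'⟩ := common hz''
  have hk := shift_cases he hf hs.1 hs.2 hk1 hk2
  have hl := shift_cases he hg hs.1 hs.2 hl1 hl2
  rcases locate he hf hef hs.1 hs.2 hk1 hk2 hpl with ⟨hh, -⟩ | ⟨hh, -⟩ | ⟨hlt, hb⟩
  · exact Or.inl hh
  · exact Or.inr hh
  rcases locate he hg heg hs.1 hs.2 hl1 hl2 hpl' with ⟨hh, -⟩ | ⟨hh, -⟩ | ⟨-, hb'⟩
  · exact Or.inl hh
  · exact Or.inr hh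
  exfalso
  have hkl : (u + k * per n) + ((l - k : ℤ) : ℝ) * per n = u + l * per n := by push_cast; ring
  have hkl' := shift_cases hf hg (u := u + k * per n) (k := l - k) hk1 hk2
    (by rw [hkl]; exact hl1) (by rw [hkl]; exact hl2)
  set m := ⌊u⌋ with hm
  have hm3 : u < m + 1 := Int.lt_floor_add_one u
  have hu : u ∈ Icc (m : ℝ) (m + 1) := ⟨hlt.le, hm3.le⟩
  have n12 := both_ne he hf hef hk hb
  have n13 := both_ne he hg heg hl hb'
  have hb'' : Both n f g (l - k) (m + k * per n) := by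
    obtain ⟨b1, b2, b3, b4⟩ := hb
    obtain ⟨c1, c2, c3, c4⟩ := hb'
    have e1 : m + k * (per n : ℤ) + (l - k) * per n = m + l * per n := by ring
    have e2 : m + k * (per n : ℤ) + 1 + (l - k) * per n = m + 1 + l * per n := by ring
    refine ⟨b3, by omega, ?_, ?_⟩
    · rw [e1]; exact c3
    · rw [e2]; exact c4
  have n23 := both_ne hf hg hfg hkl' hb''
  have e1 : m + k * (per n : ℤ) + (l - k) * per n = m + l * per n := by ring
  have e2 : m + k * (per n : ℤ) + 1 + (l - k) * per n = m + 1 + l * per n := by ring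
  have e3 : m + k * (per n : ℤ) + 1 = m + 1 + k * per n := by ring
  rw [e1, e2, e3] at n23
  obtain ⟨b1, b2, b3, b4⟩ := hb
  obtain ⟨c1, c2, c3, c4⟩ := hb'
  rw [pl_sh, pl_eq _ m hu, pl_eq _ m hu] at hpl hpl'
  -- natural numbers
  obtain ⟨X, hX⟩ := Int.eq_ofNat_of_zero_le (show 0 ≤ m by omega)
  obtain ⟨Y, hY⟩ := Int.eq_ofNat_of_zero_le (show 0 ≤ m + k * per n by omega)
  obtain ⟨Z, hZ⟩ := Int.eq_ofNat_of_zero_le (show 0 ≤ m + l * per n by omega)
  have hX1 : m + 1 = ((X + 1 : ℕ) : ℤ) := by push_cast; omega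
  have hY1 : m + 1 + k * per n = ((Y + 1 : ℕ) : ℤ) := by push_cast; omega
  have hZ1 : m + 1 + l * per n = ((Z + 1 : ℕ) : ℤ) := by push_cast; omega
  have hev := per_even n
  have hYX : Y % 2 = X % 2 := by
    rcases hk with rfl | rfl | rfl <;> omega
  have hZX : Z % 2 = X % 2 := by
    rcases hl with rfl | rfl | rfl <;> omega
  rw [hY1, hY, hX1, hX] at hpl
  rw [hZ1, hZ, hX1, hX] at hpl'
  rw [hY1, hY, hX1, hX] at n12
  rw [hZ1, hZ, hX1, hX] at n13
  rw [hY1, hY, hZ1, hZ] at n23
  simp only [nd_nat] at hpl hpl' n12 n13 n23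
  have t0 : 0 < u - X := by
    have : ((m : ℤ) : ℝ) = X := by rw [hX]; simp
    rw [this] at hlt
    linarith
  have t1 : 0 < 1 - (u - X) := by
    have : ((m : ℤ) : ℝ) = X := by rw [hX]; simp
    rw [this] at hm3
    linarith
  simp only [Int.cast_natCast] at hpl hpl'
  have hpl2 : (1 - (u - X)) * (vl n f Y : ℝ) + (u - X) * vl n f (Y + 1) =
      (1 - (u - X)) * vl n g Z + (u - X) * vl n g (Z + 1) := by linarith
  have hpl1 : (1 - (u - X)) * (vl n e X : ℝ) + (u - X) * vl n e (X + 1) =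
      (1 - (u - X)) * vl n f Y + (u - X) * vl n f (Y + 1) := by linarith
  by_cases hpar : X % 2 = 0
  · refine core (B := big n) t1 t0 hpl1 hpl2 (vl_even he hpar) (vl_even hf (by omega))
      (vl_even hg (by omega)) (vl_odd (by omega) (by omega)) (vl_odd (by omega) (by omega))
      (vl_odd (by omega) (by omega)) (vl_odd (by omega) (by omega))
      (vl_odd (by omega) (by omega)) (vl_odd (by omega) (by omega)) ?_ ?_ ?_
    · rintro ⟨w1, w2⟩
      exact n12 (by exact_mod_cast w1) (by exact_mod_cast w2)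
    · rintro ⟨w1, w2⟩
      exact n23 (by exact_mod_cast w1) (by exact_mod_cast w2)
    · rintro ⟨w1, w2⟩
      exact n13 (by exact_mod_cast w1) (by exact_mod_cast w2)
  · refine core (B := big n) t0 t1 (x1 := vl n e (X + 1)) (x2 := vl n f (Y + 1))
      (x3 := vl n g (Z + 1)) (y1 := vl n e X) (y2 := vl n f Y) (y3 := vl n g Z)
      (by linarith) (by linarith) (vl_even he (by omega)) (vl_even hf (by omega))
      (vl_even hg (by omega)) (vl_odd (by omega) (by omega)) (vl_odd (by omega) (by omega))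
      (vl_odd (by omega) (by omega)) (vl_odd (by omega) (by omega))
      (vl_odd (by omega) (by omega)) (vl_odd (by omega) (by omega)) ?_ ?_ ?_
    · rintro ⟨w1, w2⟩
      exact n12 (by exact_mod_cast w2) (by exact_mod_cast w1)
    · rintro ⟨w1, w2⟩
      exact n23 (by exact_mod_cast w2) (by exact_mod_cast w1)
    · rintro ⟨w1, w2⟩
      exact n13 (by exact_mod_cast w2) (by exact_mod_cast w1)

/-- Strands which change their order meet. -/
theorem meet_of {n : ℕ} {e f : ℕ × ℕ} {k x y : ℤ} (hxy : x < y) (h1 : (e.1 : ℤ) ≤ x)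
    (h2 : y ≤ fin n e) (h3 : (f.1 : ℤ) ≤ x + k * per n) (h4 : y + k * per n ≤ fin n f)
    (hx : nd n e x < nd n f (x + k * per n)) (hy : nd n f (y + k * per n) < nd n e y) :
    (Arc n e ∩ Arc n f).Nonempty := by
  have hxy' : (x : ℝ) ≤ y := by exact_mod_cast hxy.le
  have hc : ContinuousOn (fun u : ℝ => pl (nd n e) u - pl (nd n f) (u + k * per n))
      (Icc (x : ℝ) y) :=
    ((pl_cont _).sub ((pl_cont _).comp (continuous_id.add continuous_const))).continuousOn
  have e1 : ∀ w : ℤ, pl (nd n f) ((w : ℝ) + k * per n) = nd n f (w + k * per n) := by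
    intro w
    rw [show (w : ℝ) + k * per n = ((w + k * per n : ℤ) : ℝ) by push_cast; ring, pl_int]
  have h0 : (0 : ℝ) ∈ Icc (pl (nd n e) (x : ℝ) - pl (nd n f) ((x : ℝ) + k * per n))
      (pl (nd n e) (y : ℝ) - pl (nd n f) ((y : ℝ) + k * per n)) := by
    rw [e1, e1, pl_int, pl_int]
    exact ⟨by linarith, by linarith⟩
  obtain ⟨u, hu, hu0⟩ := intermediate_value_Icc hxy' hc h0
  have hpl : pl (nd n e) u = pl (nd n f) (u + k * per n) := by
    have : pl (nd n e) u - pl (nd n f) (u + k * per n) = 0 := hu0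
    linarith
  have q1 : ((e.1 : ℕ) : ℝ) ≤ x := by exact_mod_cast h1
  have q2 : (y : ℝ) ≤ fin n e := by exact_mod_cast h2
  have q3 : ((f.1 : ℕ) : ℝ) ≤ x + k * per n := by exact_mod_cast h3
  have q4 : (y : ℝ) + k * per n ≤ fin n f := by exact_mod_cast h4
  refine ⟨pt n e (ang n u), mem_arc (by linarith [hu.1]) (by linarith [hu.2]), ?_⟩
  rw [pt_eq' hpl]
  exact mem_arc (by linarith [hu.1]) (by linarith [hu.2])

/-- Both numbers are larger: the edges meet. -/
theorem meet_inc {n p q p' q' : ℕ} (hp : p < p') (hp' : p' < n) (hq : q < q') (hq' : q' < n) :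
    (Arc n (p', q') ∩ Arc n (p, q)).Nonempty := by
  obtain ⟨g1, g2⟩ := shift_act hp hp' hq hq'
  have hpn : n * p + (n - q') + 1 ≤ n * n := by
    have := Nat.mul_le_mul_left n (show p + 1 ≤ n by omega)
    rw [mul_add] at this
    omega
  have hpp : n * p + n ≤ n * p' := by
    have := Nat.mul_le_mul_left n (show p + 1 ≤ p' by omega)
    rw [mul_add] at this
    omega
  have hT : n + (n * p + (n - q') + 1) < per n := by unfold per; omega
  refine meet_of (k := 1) (x := (n : ℕ)) (y := (n + (n * p + (n - q') + 1) : ℕ)) (by omega) ?_ ?_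
    ?_ ?_ ?_ ?_
  · simp only; omega
  · have h6 : n + (n * p + (n - q') + 1) ≤ fin n (p', q') := by
      have h5 : fin n (p', q') = per n + ae n + q' := rfl
      omega
    exact_mod_cast h6
  · simp only; omega
  · have h6 : n + (n * p + (n - q') + 1) + per n ≤ fin n (p, q) := by
      have h5 : fin n (p, q) = per n + (n + n * n + 1) + q := rfl
      omega
    rw [show ((n + (n * p + (n - q') + 1) : ℕ) : ℤ) + 1 * per n =
      ((n + (n * p + (n - q') + 1) + per n : ℕ) : ℤ) by push_cast; ring]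
    exact_mod_cast h6
  · rw [show ((n : ℕ) : ℤ) + 1 * per n = ((n + per n : ℕ) : ℤ) by push_cast; ring, nd_nat, nd_nat]
    exact_mod_cast vl_01 (e := (p', q')) (f := (p, q)) (by unfold per; omega) (g2 n (by omega))
  · rw [show ((n + (n * p + (n - q') + 1) : ℕ) : ℤ) + 1 * per n =
      ((n + (n * p + (n - q') + 1) + per n : ℕ) : ℤ) by push_cast; ring, nd_nat, nd_nat]
    exact_mod_cast vl_10 (e := (p', q')) (f := (p, q)) hT (g1 _ hpn (by omega))

/-- A larger first and a smaller second number: the edges meet. -/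
theorem meet_dec {n p q p' q' : ℕ} (hp : p < p') (hp' : p' < n) (hq : q' < q) (hqn : q < n) :
    (Arc n (p', q') ∩ Arc n (p, q)).Nonempty := by
  obtain ⟨g1, g2⟩ := dec1 hp hp' hq hqn
  have hpn : n * p' + (n - q) ≤ n * n := by
    have := Nat.mul_le_mul_left n (show p' + 1 ≤ n by omega)
    rw [mul_add] at this
    omega
  have hae : ae n = n + n * n + 1 := rfl
  have hneg : (Arc n (p, q) ∩ Arc n (p', q')).Nonempty := by
    refine meet_of (k := 0) (x := (0 + per n : ℕ)) (y := (ae n + q' + per n : ℕ)) (by omega)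
      ?_ ?_ ?_ ?_ ?_ ?_
    · have : p < per n := by unfold per; omega
      simp only; omega
    · unfold fin; simp only; push_cast; omega
    · have : p' < per n := by unfold per; omega
      simp only; omega
    · unfold fin; simp only; push_cast; omega
    · rw [show ((0 + per n : ℕ) : ℤ) + 0 * per n = ((0 + per n : ℕ) : ℤ) by ring, nd_nat, nd_nat]
      exact_mod_cast vl_11 (e := (p, q)) (f := (p', q')) (g2 0 (by omega))
    · rw [show ((ae n + q' + per n : ℕ) : ℤ) + 0 * per n = ((ae n + q' + per n : ℕ) : ℤ) by ring,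
        nd_nat, nd_nat]
      exact_mod_cast vl_11 (e := (p', q')) (f := (p, q)) (g1 _ (by unfold ae; omega) le_rfl)
  rw [Set.inter_comm]
  exact hneg

/-- Counting the common points. -/
theorem count {n : ℕ} {e f : ℕ × ℕ} (he : Ok n e) (hf : Ok n f) (h1 : e.1 ≠ f.1)
    (h2 : e.2 ≠ f.2) {k1 k2 k3 m1 m2 m3 : ℤ} (hk1 : k1 = 0 ∨ k1 = 1 ∨ k1 = -1)
    (hk2 : k2 = 0 ∨ k2 = 1 ∨ k2 = -1) (hk3 : k3 = 0 ∨ k3 = 1 ∨ k3 = -1)
    (H : ∀ k m : ℤ, (k = 0 ∨ k = 1 ∨ k = -1) → Both n e f k m → ¬ (k = k1 ∧ m = m1) →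
      ¬ (k = k2 ∧ m = m2) → ¬ (k = k3 ∧ m = m3) → Keep n e f k m) :
    (Arc n e ∩ Arc n f).ncard ≤ 3 := by
  have hne : e ≠ f := fun h => h1 (by rw [h])
  have hsub : Arc n e ∩ Arc n f ⊆ (Com n e f k1 m1 ∪ Com n e f k2 m2) ∪ Com n e f k3 m3 := by
    rintro z ⟨hz, hz'⟩
    rcases inter_sub he hf hne hz hz' with ⟨-, h⟩ | ⟨-, h⟩ | ⟨k, m, hk, hm⟩
    · exact absurd h h1
    · exact absurd h h2
    · by_cases c1 : k = k1 ∧ m = m1
      · left; left; rw [← c1.1, ← c1.2]; exact hm
      by_cases c2 : k = k2 ∧ m = m2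
      · left; right; rw [← c2.1, ← c2.2]; exact hm
      by_cases c3 : k = k3 ∧ m = m3
      · right; rw [← c3.1, ← c3.2]; exact hm
      exfalso
      rw [keep_empty (H k m hk hm.1 c1 c2 c3)] at hm
      exact hm
  have hone : ∀ k m, (k = 0 ∨ k = 1 ∨ k = -1) → (Com n e f k m).ncard ≤ 1 ∧
      (Com n e f k m).Finite := by
    intro k m hk
    have hs := com_sub he hf hne hk m
    refine ⟨?_, hs.finite⟩
    rcases hs.eq_empty_or_singleton with h0 | ⟨z, h0⟩
    · rw [h0, Set.ncard_empty]; omega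
    · rw [h0, Set.ncard_singleton]
  have a1 := hone k1 m1 hk1
  have a2 := hone k2 m2 hk2
  have a3 := hone k3 m3 hk3
  calc (Arc n e ∩ Arc n f).ncard
      ≤ ((Com n e f k1 m1 ∪ Com n e f k2 m2) ∪ Com n e f k3 m3).ncard :=
        Set.ncard_le_ncard hsub ((a1.2.union a2.2).union a3.2)
    _ ≤ (Com n e f k1 m1 ∪ Com n e f k2 m2).ncard + (Com n e f k3 m3).ncard :=
        Set.ncard_union_le _ _
    _ ≤ ((Com n e f k1 m1).ncard + (Com n e f k2 m2).ncard) + (Com n e f k3 m3).ncard :=
        Nat.add_le_add_right (Set.ncard_union_le _ _) _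
    _ ≤ 3 := by have := a1.1; have := a2.1; have := a3.1; omega

/-- Both numbers are larger: three common points at most. -/
theorem count_inc {n p q p' q' : ℕ} (hp : p < p') (hp' : p' < n) (hq : q < q') (hq' : q' < n) :
    (Arc n (p', q') ∩ Arc n (p, q)).ncard ≤ 3 := by
  obtain ⟨g1, g2⟩ := shift_act hp hp' hq hq'
  have he : Ok n (p', q') := ⟨hp', hq'⟩
  have hf : Ok n (p, q) := ⟨by simp only; omega, by simp only; omega⟩
  have hpn : n * p' + (n - q) ≤ n * n := by
    have := Nat.mul_le_mul_left n (show p' + 1 ≤ n by omega)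
    rw [mul_add] at this
    omega
  have hpp : n * p + n ≤ n * p' := by
    have := Nat.mul_le_mul_left n (show p + 1 ≤ p' by omega)
    rw [mul_add] at this
    omega
  refine count he hf (by simp only; omega) (by simp only; omega)
    (k1 := 1) (m1 := (n + (n * p + (n - q')) : ℕ))
    (k2 := 1) (m2 := (n + (n * p' + (n - q) - 1) : ℕ))
    (k3 := 1) (m3 := (n + (n * p' + (n - q) - 1) : ℕ)) (by simp) (by simp) (by simp) ?_
  rintro k m hk ⟨b1, b2, b3, b4⟩ c1 c2 -
  have hfe := fin_lt he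
  have hff := fin_lt hf
  simp only at b1 b3
  obtain ⟨X, hX⟩ := Int.eq_ofNat_of_zero_le (show 0 ≤ m by omega)
  subst hX
  rcases hk with rfl | rfl | rfl
  · -- the same turn
    right
    rw [show (X : ℤ) + 0 * per n = ((X : ℕ) : ℤ) by ring,
      show (X : ℤ) + 1 + 0 * per n = ((X + 1 : ℕ) : ℤ) by push_cast; ring,
      show (X : ℤ) + 1 = ((X + 1 : ℕ) : ℤ) by push_cast; ring]
    have hall : ∀ x : ℕ, p' ≤ x → x ≤ fin n (p, q) → vl n (p, q) x < vl n (p', q') x := by
      intro x hx hx'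
      by_cases hxp : x < per n
      · exact vl_00 (e := (p, q)) (f := (p', q')) hxp (col0 hp hp' hq.le hq' hx)
      · obtain ⟨y, rfl⟩ := Nat.exists_eq_add_of_le (show per n ≤ x by omega)
        rw [Nat.add_comm (per n) y]
        refine vl_11 (e := (p, q)) (f := (p', q')) (inc1 hp hp' hq hq' ?_)
        unfold fin at hx'
        simp only at hx'
        omega
    simp only [nd_nat]
    exact ⟨by exact_mod_cast hall X (by omega) (by omega),
      by exact_mod_cast hall (X + 1) (by omega) (by omega)⟩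
  · -- the first turn of `(p', q')`, the second turn of `(p, q)`
    have hX : X + 1 < per n := by omega
    rw [show (X : ℤ) + 1 * per n = ((X + per n : ℕ) : ℤ) by push_cast; ring,
      show (X : ℤ) + 1 + 1 * per n = ((X + 1 + per n : ℕ) : ℤ) by push_cast; ring,
      show (X : ℤ) + 1 = ((X + 1 : ℕ) : ℤ) by push_cast; ring] at *
    have d1 : X ≠ n + (n * p + (n - q')) := fun hh => c1 ⟨rfl, by rw [hh]⟩
    have d2 : X ≠ n + (n * p' + (n - q) - 1) := fun hh => c2 ⟨rfl, by rw [hh]⟩
    unfold Keep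
    rw [show (X : ℤ) + 1 * per n = ((X + per n : ℕ) : ℤ) by push_cast; ring,
      show (X : ℤ) + 1 + 1 * per n = ((X + 1 + per n : ℕ) : ℤ) by push_cast; ring,
      show (X : ℤ) + 1 = ((X + 1 : ℕ) : ℤ) by push_cast; ring]
    simp only [nd_nat]
    by_cases hin : n + (n * p + (n - q')) < X ∧ X < n + (n * p' + (n - q))
    · right
      obtain ⟨t, rfl⟩ := Nat.exists_eq_add_of_le (show n ≤ X by omega)
      have w1 := vl_10 (e := (p', q')) (f := (p, q)) (x := n + t) (by omega)
        (g1 t (by omega) (by omega))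
      have w2 := vl_10 (e := (p', q')) (f := (p, q)) (x := n + (t + 1)) (by omega)
        (g1 (t + 1) (by omega) (by omega))
      rw [← Nat.add_assoc] at w2
      exact ⟨by exact_mod_cast w1, by exact_mod_cast w2⟩
    · left
      have w1 := vl_01 (e := (p', q')) (f := (p, q)) (x := X) (by omega) (g2 X (by omega))
      have w2 := vl_01 (e := (p', q')) (f := (p, q)) hX (g2 (X + 1) (by omega))
      exact ⟨by exact_mod_cast w1, by exact_mod_cast w2⟩
  · -- the second turn of `(p', q')`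
    right
    obtain ⟨Y, hY⟩ := Int.eq_ofNat_of_zero_le (show 0 ≤ (X : ℤ) + -1 * per n by omega)
    have hY1 : (X : ℤ) + 1 + -1 * per n = ((Y + 1 : ℕ) : ℤ) := by push_cast; omega
    have hXY : X = Y + per n := by omega
    subst hXY
    rw [hY, hY1, show ((Y + per n : ℕ) : ℤ) + 1 = ((Y + 1 + per n : ℕ) : ℤ) by push_cast; ring]
    simp only [nd_nat]
    have w1 := vl_01 (e := (p, q)) (f := (p', q')) (x := Y) (by omega)
      (shift_lt hf.1 hf.2 hq' (Or.inl hp.le) Y)
    have w2 := vl_01 (e := (p, q)) (f := (p', q')) (x := Y + 1) (by omega)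
      (shift_lt hf.1 hf.2 hq' (Or.inl hp.le) (Y + 1))
    exact ⟨by exact_mod_cast w1, by exact_mod_cast w2⟩

/-- A larger first and a smaller second number: three common points at most. -/
theorem count_dec {n p q p' q' : ℕ} (hp : p < p') (hp' : p' < n) (hq : q' < q) (hqn : q < n) :
    (Arc n (p, q) ∩ Arc n (p', q')).ncard ≤ 3 := by
  obtain ⟨g1, g2⟩ := dec0 hp hp' hq hqn
  obtain ⟨g3, g4⟩ := dec1 hp hp' hq hqn
  have he : Ok n (p, q) := ⟨by simp only; omega, hqn⟩
  have hf : Ok n (p', q') := ⟨hp', by simp only; omega⟩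
  have hpn : n * p + (n - q') ≤ n * n := by
    have := Nat.mul_le_mul_left n (show p + 1 ≤ n by omega)
    rw [mul_add] at this
    omega
  have hpn' : n * p' + (n - q) ≤ n * n := by
    have := Nat.mul_le_mul_left n (show p' + 1 ≤ n by omega)
    rw [mul_add] at this
    omega
  have hper : per n = 2 * (n * n) + 2 * n + 2 := rfl
  have hae : ae n = n + n * n + 1 := rfl
  have hfin : fin n (p, q) = per n + ae n + q := rfl
  have hfin' : fin n (p', q') = per n + ae n + q' := rfl
  refine count he hf (by simp only; omega) (by simp only; omega)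
    (k1 := 0) (m1 := (n - 1 : ℕ))
    (k2 := 0) (m2 := (n + (n * p + (n - q')) - 1 : ℕ))
    (k3 := 0) (m3 := (n + (n * p' + (n - q)) + per n : ℕ)) (by simp) (by simp) (by simp) ?_
  rintro k m hk ⟨b1, b2, b3, b4⟩ c1 c2 c3
  simp only at b1 b3
  obtain ⟨X, hX⟩ := Int.eq_ofNat_of_zero_le (show 0 ≤ m by omega)
  subst hX
  unfold Keep
  rcases hk with rfl | rfl | rfl
  · -- the same turn
    rw [show (X : ℤ) + 0 * per n = ((X : ℕ) : ℤ) by ring] at b3 ⊢
    rw [show (X : ℤ) + 1 + 0 * per n = ((X + 1 : ℕ) : ℤ) by push_cast; ring] at b4 ⊢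
    rw [show (X : ℤ) + 1 = ((X + 1 : ℕ) : ℤ) by push_cast; ring] at b2 ⊢
    have d1 : X ≠ n - 1 := fun hh => c1 ⟨rfl, by rw [hh]⟩
    have d2 : X ≠ n + (n * p + (n - q')) - 1 := fun hh => c2 ⟨rfl, by rw [hh]⟩
    have d3 : X ≠ n + (n * p' + (n - q)) + per n := fun hh => c3 ⟨rfl, by rw [hh]⟩
    have b2' : X + 1 ≤ per n + ae n + q := by rw [← hfin]; exact_mod_cast b2
    have b3' : p' ≤ X := by exact_mod_cast b3
    have b4' : X + 1 ≤ per n + ae n + q' := by rw [← hfin']; exact_mod_cast b4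
    have low : ∀ x, p' ≤ x → (x < n ∨ (n + (n * p + (n - q')) ≤ x ∧
        x ≤ n + (n * p' + (n - q)) + per n)) → vl n (p, q) x < vl n (p', q') x := by
      intro x hx hx'
      by_cases hxp : x < per n
      · exact vl_00 (e := (p, q)) (f := (p', q')) hxp (g2 x hx (by omega))
      · obtain ⟨y, rfl⟩ := Nat.exists_eq_add_of_le (show per n ≤ x by omega)
        rw [Nat.add_comm (per n) y]
        exact vl_11 (e := (p, q)) (f := (p', q')) (g4 y (by omega))
    have high : ∀ x, ((n ≤ x ∧ x < n + (n * p + (n - q'))) ∨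
        (n + (n * p' + (n - q)) + per n < x ∧ x ≤ per n + ae n + q')) →
        vl n (p', q') x < vl n (p, q) x := by
      intro x hx'
      by_cases hxp : x < per n
      · exact vl_00 (e := (p', q')) (f := (p, q)) hxp (g1 x (by omega) (by omega))
      · obtain ⟨y, rfl⟩ := Nat.exists_eq_add_of_le (show per n ≤ x by omega)
        rw [Nat.add_comm (per n) y]
        exact vl_11 (e := (p', q')) (f := (p, q)) (g3 y (by omega) (by omega))
    simp only [nd_nat]
    by_cases a1 : X + 1 < n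
    · left
      exact ⟨by exact_mod_cast low X b3' (by omega),
        by exact_mod_cast low (X + 1) (by omega) (by omega)⟩
    · by_cases a2 : X < n + (n * p + (n - q'))
      · right
        exact ⟨by exact_mod_cast high X (by omega), by exact_mod_cast high (X + 1) (by omega)⟩
      · by_cases a3 : X < n + (n * p' + (n - q)) + per n
        · left
          exact ⟨by exact_mod_cast low X b3' (by omega),
            by exact_mod_cast low (X + 1) (by omega) (by omega)⟩
        · right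
          exact ⟨by exact_mod_cast high X (by omega), by exact_mod_cast high (X + 1) (by omega)⟩
  · -- the first turn of `(p, q)`, the second turn of `(p', q')`
    left
    rw [show (X : ℤ) + 1 * per n = ((X + per n : ℕ) : ℤ) by push_cast; ring,
      show (X : ℤ) + 1 + 1 * per n = ((X + 1 + per n : ℕ) : ℤ) by push_cast; ring,
      show (X : ℤ) + 1 = ((X + 1 : ℕ) : ℤ) by push_cast; ring]
    simp only [nd_nat]
    have hX1 : X + 1 < per n := by omega
    have w1 := vl_01 (e := (p, q)) (f := (p', q')) (x := X) (by omega)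
      (shift_lt he.1 he.2 hf.2 (Or.inl hp.le) X)
    have w2 := vl_01 (e := (p, q)) (f := (p', q')) (x := X + 1) hX1
      (shift_lt he.1 he.2 hf.2 (Or.inl hp.le) (X + 1))
    exact ⟨by exact_mod_cast w1, by exact_mod_cast w2⟩
  · -- the second turn of `(p, q)`
    right
    obtain ⟨Y, hY⟩ := Int.eq_ofNat_of_zero_le (show 0 ≤ (X : ℤ) + -1 * per n by omega)
    have hY1 : (X : ℤ) + 1 + -1 * per n = ((Y + 1 : ℕ) : ℤ) := by push_cast; omega
    have hXY : X = Y + per n := by omega
    subst hXY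
    rw [hY, hY1, show ((Y + per n : ℕ) : ℤ) + 1 = ((Y + 1 + per n : ℕ) : ℤ) by push_cast; ring]
    simp only [nd_nat]
    have w1 := vl_01 (e := (p', q')) (f := (p, q)) (x := Y) (by omega)
      (shift_lt hf.1 hf.2 he.2 (Or.inr hq.le) Y)
    have w2 := vl_01 (e := (p', q')) (f := (p, q)) (x := Y + 1) (by omega)
      (shift_lt hf.1 hf.2 he.2 (Or.inr hq.le) (Y + 1))
    exact ⟨by exact_mod_cast w1, by exact_mod_cast w2⟩

end Pool.Agent.KBip
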