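import Pool.Agent.Hhelper93.KBip.Node
import Pool.Agent.Hhelper93.CLow3.Draw

/-!
# The drawing
-/

set_option autoImplicit false

namespace Pool.Agent.KBip

open Set
open Pool.Agent.CLow

/-- `S` is a Jordan arc from `p` to `q`. -/
def JArc (S : Set ℂ) (p q : ℂ) : Prop :=
  ∃ (a b : ℝ) (γ : ℝ → ℂ), a < b ∧ ContinuousOn γ (Icc a b) ∧ Set.InjOn γ (Icc a b) ∧
    S = γ '' Icc a b ∧ p = γ a ∧ q = γ b

/-- Shift of the argument. -/
theorem pl_shift (v : ℤ → ℝ) (u : ℝ) (c : ℤ) :
    pl v (u + c) = pl (fun j => v (j + c)) u := by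
  unfold pl
  rw [Int.fract_add_intCast, Int.floor_add_intCast]
  rw [show ⌊u⌋ + c + 1 = ⌊u⌋ + 1 + c by ring]

/-- Strict comparison. -/
theorem pl_lt {v w : ℤ → ℝ} {x y : ℤ} {u : ℝ} (hx : (x : ℝ) ≤ u) (hy : u ≤ y)
    (h : ∀ j, x ≤ j → j ≤ y → v j < w j) : pl v u < pl w u := by
  set m := ⌊u⌋ with hm
  have hm1 : x ≤ m := Int.le_floor.2 hx
  have hm2 : (m : ℝ) ≤ u := Int.floor_le u
  have hm3 : u < m + 1 := Int.lt_floor_add_one u
  have hmy : m ≤ y := by
    have : (m : ℝ) ≤ y := hm2.trans hy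
    exact_mod_cast this
  have hu : u ∈ Icc (m : ℝ) (m + 1) := ⟨hm2, hm3.le⟩
  have g1 := h m hm1 hmy
  rcases hm2.lt_or_eq with hlt | heq
  · have hmy' : m + 1 ≤ y := by
      have : (m : ℝ) < y := hlt.trans_le hy
      have : m < y := by exact_mod_cast this
      omega
    have g2 := h (m + 1) (by omega) hmy'
    rw [pl_eq v m hu, pl_eq w m hu]
    have t0 : 0 < u - m := by linarith
    have t1 : 0 < 1 - (u - m) := by linarith
    nlinarith [mul_pos t1 (sub_pos.2 g1), mul_pos t0 (sub_pos.2 g2)]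
  · rw [← heq, pl_int, pl_int]
    exact g1

/-- The angle of the parameter `u`. -/
noncomputable def ang (n : ℕ) (u : ℝ) : ℝ := u * (2 * Real.pi / per n)

/-- The radial function of an edge. -/
noncomputable def rho (n : ℕ) (e : ℕ × ℕ) (s : ℝ) : ℝ :=
  Real.exp (pl (nd n e) (s / (2 * Real.pi / per n)))

/-- The unit of angle is positive. -/
theorem unit_pos (n : ℕ) : 0 < 2 * Real.pi / per n := by
  have := per_pos n
  have : (0 : ℝ) < per n := by exact_mod_cast this
  have := Real.pi_pos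
  positivity

theorem ang_per (n : ℕ) : ang n (per n) = 2 * Real.pi := by
  have := per_pos n
  have : (0 : ℝ) < per n := by exact_mod_cast this
  unfold ang
  field_simp

theorem ang_lt {n : ℕ} {u v : ℝ} : ang n u < ang n v ↔ u < v := by
  unfold ang
  exact mul_lt_mul_iff_left₀ (unit_pos n)

theorem ang_le {n : ℕ} {u v : ℝ} : ang n u ≤ ang n v ↔ u ≤ v := by
  unfold ang
  exact mul_le_mul_iff_left₀ (unit_pos n)

theorem rho_ang (n : ℕ) (e : ℕ × ℕ) (u : ℝ) : rho n e (ang n u) = Real.exp (pl (nd n e) u) := by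
  unfold rho ang
  rw [mul_div_cancel_right₀ _ (unit_pos n).ne']

theorem exists_ang (n : ℕ) (s : ℝ) : ∃ u, s = ang n u := by
  refine ⟨s / (2 * Real.pi / per n), ?_⟩
  unfold ang
  rw [div_mul_cancel₀ _ (unit_pos n).ne']

theorem rho_cont (n : ℕ) (e : ℕ × ℕ) : Continuous (rho n e) := by
  unfold rho
  exact Real.continuous_exp.comp ((pl_cont _).comp (continuous_id.div_const _))

theorem rho_pos (n : ℕ) (e : ℕ × ℕ) (s : ℝ) : 0 < rho n e s := Real.exp_pos _

/-- The point of the edge `e` in the direction `s`. -/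
noncomputable def pt (n : ℕ) (e : ℕ × ℕ) (s : ℝ) : ℂ :=
  (0 : ℂ) + (rho n e s : ℂ) * Complex.exp (s * Complex.I)

/-- The arc. -/
noncomputable def Arc (n : ℕ) (e : ℕ × ℕ) : Set ℂ :=
  pt n e '' Icc (ang n e.1) (ang n (fin n e))

theorem exp_per (n : ℕ) (u : ℝ) (k : ℤ) : Complex.exp ((ang n (u + k * per n) : ℝ) * Complex.I) =
    Complex.exp ((ang n u : ℝ) * Complex.I) := by
  have h : ang n (u + k * per n) = ang n u + k * (2 * Real.pi) := by
    rw [← ang_per n]; unfold ang; ring
  rw [Complex.exp_eq_exp_iff_exists_int]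
  refine ⟨k, ?_⟩
  rw [h]
  push_cast
  ring

/-- Polar coordinates modulo the period. -/
theorem polar_mod {n : ℕ} {r r' u u' : ℝ} (hr : 0 < r) (hr' : 0 < r')
    (h : (0 : ℂ) + (r : ℂ) * Complex.exp ((ang n u : ℝ) * Complex.I) =
      (0 : ℂ) + (r' : ℂ) * Complex.exp ((ang n u' : ℝ) * Complex.I)) :
    r = r' ∧ ∃ k : ℤ, u = u' + k * per n := by
  have h1 := add_left_cancel h
  have hn := congrArg norm h1
  rw [norm_mul, norm_mul, Complex.norm_exp_ofReal_mul_I, Complex.norm_exp_ofReal_mul_I, mul_one,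
    mul_one, Complex.norm_real, Complex.norm_real, Real.norm_of_nonneg hr.le,
    Real.norm_of_nonneg hr'.le] at hn
  subst hn
  refine ⟨rfl, ?_⟩
  have hr0 : (r : ℂ) ≠ 0 := by exact_mod_cast hr.ne'
  have h2 := mul_left_cancel₀ hr0 h1
  rw [Complex.exp_eq_exp_iff_exists_int] at h2
  obtain ⟨n', hn⟩ := h2
  refine ⟨n', ?_⟩
  have h3 : ang n u = ang n u' + n' * (2 * Real.pi) := by
    have h4 : ((ang n u : ℝ) : ℂ) * Complex.I =
        (((ang n u' : ℝ) : ℂ) + n' * (2 * Real.pi)) * Complex.I := by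
      rw [hn]; ring
    have h5 := mul_right_cancel₀ Complex.I_ne_zero h4
    exact_mod_cast h5
  rw [← ang_per n] at h3
  have h4 : ang n u = ang n (u' + n' * per n) := by
    rw [h3]; unfold ang; ring
  unfold ang at h4
  exact mul_right_cancel₀ (unit_pos n).ne' h4

/-- Equality of two points. -/
theorem pt_eq {n : ℕ} {e f : ℕ × ℕ} {u u' : ℝ} (h : pt n e (ang n u) = pt n f (ang n u')) :
    ∃ k : ℤ, u' = u + k * per n ∧ pl (nd n e) u = pl (nd n f) (u + k * per n) := by
  obtain ⟨hr, k, hk⟩ := polar_mod (rho_pos n _ _) (rho_pos n _ _) h.symm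
  rw [rho_ang, rho_ang] at hr
  refine ⟨k, hk, ?_⟩
  rw [← hk]
  exact (Real.exp_injective hr).symm

/-- The points are equal if the heights are equal. -/
theorem pt_eq' {n : ℕ} {e f : ℕ × ℕ} {u : ℝ} {k : ℤ}
    (h : pl (nd n e) u = pl (nd n f) (u + k * per n)) :
    pt n e (ang n u) = pt n f (ang n (u + k * per n)) := by
  unfold pt
  rw [exp_per, rho_ang, rho_ang, h]

/-- The parameter of a common point. -/
theorem common {n : ℕ} {e f : ℕ × ℕ} {u : ℝ} (hz : pt n e (ang n u) ∈ Arc n f) :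
    ∃ k : ℤ, (f.1 : ℝ) ≤ u + k * per n ∧ u + k * per n ≤ fin n f ∧
      pl (nd n e) u = pl (nd n f) (u + k * per n) := by
  obtain ⟨s', hs', he⟩ := hz
  obtain ⟨u', rfl⟩ := exists_ang n s'
  simp only [Set.mem_Icc, ang_le] at hs'
  obtain ⟨k, hk, hpl⟩ := pt_eq he.symm
  exact ⟨k, by rw [← hk]; exact hs'.1, by rw [← hk]; exact hs'.2, hpl⟩

/-- The shifted node function. -/
theorem pl_sh (n : ℕ) (f : ℕ × ℕ) (u : ℝ) (k : ℤ) :
    pl (nd n f) (u + k * per n) = pl (fun j => nd n f (j + k * per n)) u := by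
  have := pl_shift (nd n f) u (k * per n)
  push_cast at this
  exact this

/-- The start vertices. -/
noncomputable def sp (n p : ℕ) : ℂ :=
  (0 : ℂ) + ((Real.exp (bs n p ^ (n * p) : ℕ) : ℝ) : ℂ) * Complex.exp ((ang n p : ℝ) * Complex.I)

/-- The end vertices. -/
noncomputable def ep (n q : ℕ) : ℂ :=
  (0 : ℂ) + ((Real.exp (bs n (ae n + q) ^ ((2 * n + 3) * (n * n) + n * q) : ℕ) : ℝ) : ℂ) *
    Complex.exp ((ang n ((ae n + q : ℕ) : ℝ) : ℝ) * Complex.I)

theorem start_pt {n : ℕ} {e : ℕ × ℕ} (h : Ok n e) : pt n e (ang n e.1) = sp n e.1 := by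
  unfold pt sp
  rw [rho_ang, pl_nat, nd_nat, vl_0 (start_lt h), h0_birth]

theorem end_pt {n : ℕ} (e : ℕ × ℕ) : pt n e (ang n (fin n e)) = ep n e.2 := by
  have h1 : (fin n e : ℝ) = ((ae n + e.2 : ℕ) : ℝ) + ((1 : ℤ) : ℝ) * per n := by
    unfold fin; push_cast; ring
  have h2 : fin n e = (ae n + e.2) + per n := by unfold fin; ring
  unfold pt ep
  rw [rho_ang, pl_nat, nd_nat, h1, exp_per, h2, vl_1, h1_end]

/-- Strands of different turns, if not both numbers of the first one are larger. -/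
theorem shift_nodes {n : ℕ} {e f : ℕ × ℕ} (he : Ok n e) (hf : Ok n f)
    (h : e.1 ≤ f.1 ∨ e.2 ≤ f.2) {j : ℤ} (h0 : 0 ≤ j) (h1 : j < per n) :
    nd n e j < nd n f (j + per n) := by
  obtain ⟨x, rfl⟩ := Int.eq_ofNat_of_zero_le h0
  have hx : x < per n := by exact_mod_cast h1
  rw [show (x : ℤ) + per n = ((x + per n : ℕ) : ℤ) by push_cast; ring, nd_nat, nd_nat]
  exact_mod_cast vl_01 hx (shift_lt he.1 he.2 hf.2 h x)

/-- There is no common point of strands of different turns, if not both numbers are larger. -/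
theorem no_shift {n : ℕ} {e f : ℕ × ℕ} (he : Ok n e) (hf : Ok n f)
    (h : e.1 ≤ f.1 ∨ e.2 ≤ f.2) {u : ℝ} (h0 : 0 ≤ u) (h1 : u + per n ≤ fin n f) :
    pl (nd n e) u < pl (nd n f) (u + per n) := by
  have g2 := fin_lt hf
  have e1 := pl_shift (nd n f) u (per n)
  push_cast at e1
  rw [e1]
  refine pl_lt (x := 0) (y := (fin n f : ℤ) - per n) (by exact_mod_cast h0)
    (by push_cast; linarith) ?_
  intro j hj0 hj1
  exact shift_nodes he hf h hj0 (by omega)

/-- Two edges with the same start vertex. -/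
theorem arc_row {n p q q' : ℕ} (h : Ok n (p, q)) (h' : Ok n (p, q')) (hq : q < q') {z : ℂ}
    (hz : z ∈ Arc n (p, q)) (hz' : z ∈ Arc n (p, q')) : z = sp n p := by
  obtain ⟨s, hs, rfl⟩ := hz
  obtain ⟨u, rfl⟩ := exists_ang n s
  simp only [Set.mem_Icc, ang_le] at hs
  obtain ⟨k, hk1, hk2, hpl⟩ := common hz'
  have hp0 : (0 : ℝ) ≤ p := Nat.cast_nonneg p
  simp only at hk1 hk2
  rcases shift_cases h h' (by exact hs.1) hs.2 (by exact hk1) hk2 with rfl | rfl | rfl
  · have hpl' : pl (nd n (p, q)) u = pl (nd n (p, q')) u := by simpa using hpl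
    have hu := pl_eq_imp (x := p) (y := fin n (p, q)) (j0 := p)
      (by exact_mod_cast hs.1) (by exact_mod_cast hs.2) (by
        intro j hj1 hj2 hj3
        obtain ⟨x, rfl⟩ := Int.eq_ofNat_of_zero_le (show 0 ≤ j by omega)
        rw [nd_nat, nd_nat]
        by_cases hx : x < per n
        · exact_mod_cast vl_00 (e := (p, q)) (f := (p, q')) hx (row0 h.1 hq h'.2 (by omega))
        · obtain ⟨y, rfl⟩ := Nat.exists_eq_add_of_le (show per n ≤ x by omega)
          rw [Nat.add_comm (per n) y]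
          have hy : y ≤ ae n + q := by
            have : per n + y ≤ fin n (p, q) := by exact_mod_cast hj2
            unfold fin at this
            simp only at this
            omega
          exact_mod_cast vl_11 (e := (p, q)) (f := (p, q')) (row1 h.1 hq h'.2 hy)) (by
        rw [nd_nat, nd_nat, vl_0 (by exact start_lt h), vl_0 (by exact start_lt h)]
        simp only [h0_birth, le_refl]) hpl'
    rw [hu]
    exact_mod_cast start_pt h
  · exfalso
    have := no_shift h h' (Or.inl le_rfl) (u := u) (by linarith [hs.1]) (by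
      simpa using hk2)
    rw [show u + ((1 : ℤ) : ℝ) * per n = u + per n by push_cast; ring] at hpl
    linarith
  · exfalso
    have h1 : 0 ≤ u - per n := by
      have : (p : ℝ) ≤ u + ((-1 : ℤ) : ℝ) * per n := hk1
      push_cast at this
      linarith
    have := no_shift h' h (Or.inl le_rfl) (u := u - per n) h1 (by
      rw [sub_add_cancel]; exact hs.2)
    rw [sub_add_cancel] at this
    rw [show u + ((-1 : ℤ) : ℝ) * per n = u - per n by push_cast; ring] at hpl
    linarith

/-- Two edges with the same end vertex. -/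
theorem arc_col {n p p' q : ℕ} (h : Ok n (p, q)) (h' : Ok n (p', q)) (hp : p < p') {z : ℂ}
    (hz : z ∈ Arc n (p, q)) (hz' : z ∈ Arc n (p', q)) : z = ep n q := by
  obtain ⟨s, hs, rfl⟩ := hz
  obtain ⟨u, rfl⟩ := exists_ang n s
  simp only [Set.mem_Icc, ang_le] at hs
  obtain ⟨k, hk1, hk2, hpl⟩ := common hz'
  have hp0 : (0 : ℝ) ≤ p := Nat.cast_nonneg p
  have hp0' : (0 : ℝ) ≤ p' := Nat.cast_nonneg p'
  simp only at hk1 hk2
  rcases shift_cases h h' (by exact hs.1) hs.2 (by exact hk1) hk2 with rfl | rfl | rfl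
  · have hpl' : pl (nd n (p, q)) u = pl (nd n (p', q)) u := by simpa using hpl
    have hk1' : (p' : ℝ) ≤ u := by simpa using hk1
    have hu := pl_eq_imp (x := p') (y := fin n (p, q)) (j0 := fin n (p, q))
      (by exact_mod_cast hk1') (by exact_mod_cast hs.2) (by
        intro j hj1 hj2 hj3
        obtain ⟨x, rfl⟩ := Int.eq_ofNat_of_zero_le (show 0 ≤ j by omega)
        rw [nd_nat, nd_nat]
        by_cases hx : x < per n
        · exact_mod_cast vl_00 (e := (p, q)) (f := (p', q)) hx
            (col0 hp h'.1 le_rfl h.2 (by omega))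
        · obtain ⟨y, rfl⟩ := Nat.exists_eq_add_of_le (show per n ≤ x by omega)
          rw [Nat.add_comm (per n) y]
          have hy : y ≠ ae n + q := by
            intro hy
            apply hj3
            unfold fin
            simp only
            omega
          exact_mod_cast vl_11 (e := (p, q)) (f := (p', q)) (col1 hp h'.1 h.2 hy)) (by
        have e1 : fin n (p, q) = (ae n + q) + per n := by unfold fin; ring
        rw [nd_nat, nd_nat, e1, vl_1, vl_1]
        simp only [h1_end, le_refl]) hpl'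
    rw [hu]
    exact_mod_cast end_pt (n := n) (p, q)
  · exfalso
    have := no_shift h h' (Or.inr le_rfl) (u := u) (by linarith [hs.1]) (by
      simpa using hk2)
    rw [show u + ((1 : ℤ) : ℝ) * per n = u + per n by push_cast; ring] at hpl
    linarith
  · exfalso
    have h1 : 0 ≤ u - per n := by
      have : (p' : ℝ) ≤ u + ((-1 : ℤ) : ℝ) * per n := hk1
      push_cast at this
      linarith
    have := no_shift h' h (Or.inr le_rfl) (u := u - per n) h1 (by
      rw [sub_add_cancel]; exact hs.2)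
    rw [sub_add_cancel] at this
    rw [show u + ((-1 : ℤ) : ℝ) * per n = u - per n by push_cast; ring] at hpl
    linarith

/-- The edges are Jordan arcs. -/
theorem jarc {n : ℕ} {e : ℕ × ℕ} (h : Ok n e) : JArc (Arc n e) (sp n e.1) (ep n e.2) := by
  have hlt : (e.1 : ℝ) < fin n e := by
    have := start_lt h
    have h2 : e.1 < fin n e := by unfold fin; omega
    exact_mod_cast h2
  refine ⟨ang n e.1, ang n (fin n e), pt n e, ang_lt.2 hlt, ?_, ?_, rfl, (start_pt h).symm,
    (end_pt e).symm⟩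
  · have hc : Continuous (pt n e) := by
      unfold pt
      have := rho_cont n e
      fun_prop
    exact hc.continuousOn
  · intro s hs s' hs' hss
    obtain ⟨u, rfl⟩ := exists_ang n s
    obtain ⟨u', rfl⟩ := exists_ang n s'
    simp only [Set.mem_Icc, ang_le] at hs hs'
    obtain ⟨k, hk, hpl⟩ := pt_eq hss
    have e0 : (0 : ℝ) ≤ e.1 := Nat.cast_nonneg _
    rw [hk] at hs'
    rcases shift_cases h h hs.1 hs.2 hs'.1 hs'.2 with rfl | rfl | rfl
    · rw [hk]; simp
    · exfalso
      have := no_shift h h (Or.inl le_rfl) (u := u) (by linarith [hs.1]) (by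
        simpa using hs'.2)
      rw [show u + ((1 : ℤ) : ℝ) * per n = u + per n by push_cast; ring] at hpl
      linarith
    · exfalso
      have h1 : 0 ≤ u - per n := by
        have := hs'.1
        push_cast at this
        linarith
      have := no_shift h h (Or.inl le_rfl) (u := u - per n) h1 (by
        rw [sub_add_cancel]; exact hs.2)
      rw [sub_add_cancel] at this
      rw [show u + ((-1 : ℤ) : ℝ) * per n = u - per n by push_cast; ring] at hpl
      linarith

end Pool.Agent.KBip
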