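import Pool.Agent.Hhelper93.KBip.Count

/-!
# The complete bipartite graph
-/

set_option autoImplicit false

namespace Pool.Agent.KBip

open Set
open Pool.Agent.CLow

/-- The positions of the vertices. -/
noncomputable def vpos (n : ℕ) : Fin n ⊕ Fin n → ℂ
  | Sum.inl p => sp n p
  | Sum.inr q => ep n q

/-- The pair of numbers of an edge. -/
def pr {n : ℕ} : Sym2 (Fin n ⊕ Fin n) → ℕ × ℕ :=
  Sym2.lift ⟨fun x y => match x, y with
    | Sum.inl a, Sum.inr b => ((a : ℕ), (b : ℕ))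
    | Sum.inr b, Sum.inl a => ((a : ℕ), (b : ℕ))
    | _, _ => (0, 0), by
      intro x y
      rcases x with a | b <;> rcases y with c | d <;> rfl⟩

theorem pr_mk {n : ℕ} (a b : Fin n) :
    pr (s(Sum.inl a, Sum.inr b) : Sym2 (Fin n ⊕ Fin n)) = ((a : ℕ), (b : ℕ)) := rfl

theorem mem_edge {n : ℕ} {e : Sym2 (Fin n ⊕ Fin n)} :
    e ∈ (completeBipartiteGraph (Fin n) (Fin n)).edgeSet ↔
    ∃ a b : Fin n, e = s(Sum.inl a, Sum.inr b) := by
  constructor
  · induction e using Sym2.ind with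
    | _ x y =>
      intro h
      rw [SimpleGraph.mem_edgeSet, completeBipartiteGraph_adj] at h
      rcases x with a | b <;> rcases y with c | d
      · simp at h
      · exact ⟨a, d, rfl⟩
      · exact ⟨c, b, Sym2.eq_swap⟩
      · simp at h
  · rintro ⟨a, b, rfl⟩
    rw [SimpleGraph.mem_edgeSet, completeBipartiteGraph_adj]
    simp

theorem ok {n : ℕ} (a b : Fin n) : Ok n ((a : ℕ), (b : ℕ)) := ⟨a.2, b.2⟩

theorem ne_of_ne {n : ℕ} {a b c d : Fin n}
    (h : (s(Sum.inl a, Sum.inr b) : Sym2 (Fin n ⊕ Fin n)) ≠ s(Sum.inl c, Sum.inr d)) :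
    ((a : ℕ), (b : ℕ)) ≠ ((c : ℕ), (d : ℕ)) := by
  intro hh
  rw [Prod.mk.injEq] at hh
  exact h (by rw [Fin.ext hh.1, Fin.ext hh.2])

/-- A parameter with a given residue. -/
theorem residue {n : ℕ} {e : ℕ × ℕ} (he : Ok n e) {u : ℝ} {x : ℕ} {k : ℤ} (hx : x < per n)
    (h1 : (e.1 : ℝ) ≤ u) (h2 : u ≤ fin n e) (hu : u = x + k * per n) :
    u = x ∨ u = ((x + per n : ℕ) : ℝ) := by
  have g1 : (fin n e : ℝ) < 2 * per n := by exact_mod_cast fin_lt he
  have g3 : (0 : ℝ) ≤ e.1 := Nat.cast_nonneg _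
  have g4 : (0 : ℝ) ≤ x := Nat.cast_nonneg _
  have g5 : (0 : ℝ) < per n := by exact_mod_cast per_pos n
  have g6 : (x : ℝ) < per n := by exact_mod_cast hx
  have c8 : (k : ℝ) * per n < 2 * per n := by linarith
  have c9 : (-1 : ℝ) * per n < k * per n := by linarith
  have d1 : (k : ℝ) < 2 := lt_of_mul_lt_mul_right c8 g5.le
  have d2 : (-1 : ℝ) < k := lt_of_mul_lt_mul_right c9 g5.le
  have d3 : k < 2 := by exact_mod_cast d1
  have d4 : -1 < k := by exact_mod_cast d2
  rcases (show k = 0 ∨ k = 1 by omega) with rfl | rfl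
  · left; rw [hu]; simp
  · right; rw [hu]; push_cast; ring

/-- The edges avoid the other start vertices. -/
theorem avoid_start {n : ℕ} {e : ℕ × ℕ} (he : Ok n e) {x : ℕ} (hx : x < n)
    (h : sp n x ∈ Arc n e) : e.1 = x := by
  obtain ⟨s, hs, hz⟩ := h
  obtain ⟨u, rfl⟩ := exists_ang n s
  simp only [Set.mem_Icc, ang_le] at hs
  obtain ⟨hr, k, hk⟩ := polar_mod (rho_pos n _ _) (Real.exp_pos _) hz
  have hxp : x < per n := by unfold per; omega
  rw [rho_ang] at hr
  have hr' := Real.exp_injective hr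
  by_contra hne
  have hkl := key_lt he.1 he.2
  have hb := big_mul n
  have hx' : n * x < n * n := by
    have := Nat.mul_le_mul_left n (show x + 1 ≤ n by omega)
    rw [mul_add] at this
    omega
  rcases residue he hxp hs.1 hs.2 hk with hu | hu
  · rw [hu, pl_nat, nd_nat, vl_0 hxp] at hr'
    have h1 : bs n x ^ h0 n e.1 e.2 x = bs n x ^ (n * x) := by exact_mod_cast hr'
    have h2 := Nat.pow_right_injective (one_lt_bs n x) h1
    rw [h0_else (by omega) (by omega)] at h2
    have := key_unique (n := n) (x := e.1) (y := e.2) (z := x) (w := 0) he.2 (by omega) h2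
    omega
  · rw [hu, pl_nat, nd_nat, vl_1] at hr'
    have h1 : bs n x ^ h1 n e.1 e.2 x = bs n x ^ (n * x) := by exact_mod_cast hr'
    have h2 := Nat.pow_right_injective (one_lt_bs n x) h1
    rw [h1_early hx] at h2
    have := hb (n * e.1 + e.2)
    omega

/-- The edges avoid the other end vertices. -/
theorem avoid_end {n : ℕ} {e : ℕ × ℕ} (he : Ok n e) {y : ℕ} (hy : y < n)
    (h : ep n y ∈ Arc n e) : e.2 = y := by
  obtain ⟨s, hs, hz⟩ := h
  obtain ⟨u, rfl⟩ := exists_ang n s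
  simp only [Set.mem_Icc, ang_le] at hs
  obtain ⟨hr, k, hk⟩ := polar_mod (rho_pos n _ _) (Real.exp_pos _) hz
  have hae : ae n = n + n * n + 1 := rfl
  have hxp : ae n + y < per n := by unfold per; omega
  rw [rho_ang] at hr
  have hr' := Real.exp_injective hr
  by_contra hne
  have hkl := key_lt he.1 he.2
  have hb := big_mul n
  have he1 := he.1
  rcases residue he hxp hs.1 hs.2 hk with hu | hu
  · rw [hu, pl_nat, nd_nat, vl_0 hxp] at hr'
    have h1 : bs n (ae n + y) ^ h0 n e.1 e.2 (ae n + y) =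
        bs n (ae n + y) ^ ((2 * n + 3) * (n * n) + n * y) := by exact_mod_cast hr'
    have h2 := Nat.pow_right_injective (one_lt_bs n _) h1
    rw [h0_else (by omega) (by omega)] at h2
    have := hb (n * y)
    omega
  · rw [hu, pl_nat, nd_nat, vl_1] at hr'
    have h1 : bs n (ae n + y) ^ h1 n e.1 e.2 (ae n + y) =
        bs n (ae n + y) ^ ((2 * n + 3) * (n * n) + n * y) := by exact_mod_cast hr'
    have h2 := Nat.pow_right_injective (one_lt_bs n _) h1
    rw [h1_late (by omega) (by omega)] at h2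
    have := key_unique (n := n) (x := e.2) (y := e.1) (z := y) (w := 0) he.1 (by omega)
      (by omega)
    omega

theorem vpos_inj (n : ℕ) : Function.Injective (vpos n) := by
  have key : ∀ (r r' : ℝ) (x y : ℕ), 0 < r → 0 < r' → x < per n → y < per n →
      (0 : ℂ) + (r : ℂ) * Complex.exp ((ang n (x : ℝ) : ℝ) * Complex.I) =
      (0 : ℂ) + (r' : ℂ) * Complex.exp ((ang n (y : ℝ) : ℝ) * Complex.I) → x = y := by
    intro r r' x y hr hr' hx hy h
    obtain ⟨-, k, hk⟩ := polar_mod hr hr' h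
    have h1 : (x : ℤ) = y + k * per n := by exact_mod_cast hk
    have h2 : (x : ℤ) % per n = (y : ℤ) % per n := by rw [h1, Int.add_mul_emod_self_right]
    rw [Int.emod_eq_of_lt (by omega) (by omega), Int.emod_eq_of_lt (by omega) (by omega)] at h2
    exact_mod_cast h2
  have hper : per n = 2 * (n * n) + 2 * n + 2 := rfl
  have hae : ae n = n + n * n + 1 := rfl
  rintro (a | b) (c | d) h <;> simp only [vpos, sp, ep] at h
  · have := key _ _ (a : ℕ) (c : ℕ) (Real.exp_pos _) (Real.exp_pos _) (by omega) (by omega) h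
    rw [show a = c from Fin.ext (by omega)]
  · have := key _ _ (a : ℕ) (ae n + (d : ℕ)) (Real.exp_pos _) (Real.exp_pos _) (by omega)
      (by omega) h
    omega
  · have := key _ _ (ae n + (b : ℕ)) (c : ℕ) (Real.exp_pos _) (Real.exp_pos _) (by omega)
      (by omega) h
    omega
  · have := key _ _ (ae n + (b : ℕ)) (ae n + (d : ℕ)) (Real.exp_pos _) (Real.exp_pos _)
      (by omega) (by omega) h
    rw [show b = d from Fin.ext (by omega)]

/-- Every two edges meet. -/
theorem meet {n : ℕ} (a b c d : Fin n) :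
    (Arc n ((a : ℕ), (b : ℕ)) ∩ Arc n ((c : ℕ), (d : ℕ))).Nonempty := by
  have hend : ∀ e : ℕ × ℕ, Ok n e → sp n e.1 ∈ Arc n e ∧ ep n e.2 ∈ Arc n e := by
    intro e he
    have hlt : e.1 ≤ fin n e := by
      have := start_lt he
      unfold fin; omega
    have hlt' : (e.1 : ℝ) ≤ fin n e := by exact_mod_cast hlt
    rw [← start_pt he, ← end_pt e]
    exact ⟨mem_arc le_rfl hlt', mem_arc hlt' le_rfl⟩
  by_cases h1 : (a : ℕ) = c
  · refine ⟨sp n a, (hend _ (ok a b)).1, ?_⟩
    rw [h1]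
    exact (hend _ (ok c d)).1
  by_cases h2 : (b : ℕ) = d
  · refine ⟨ep n b, (hend _ (ok a b)).2, ?_⟩
    rw [h2]
    exact (hend _ (ok c d)).2
  rcases lt_or_gt_of_ne h1 with g1 | g1 <;> rcases lt_or_gt_of_ne h2 with g2 | g2
  · rw [Set.inter_comm]; exact meet_inc g1 c.2 g2 d.2
  · rw [Set.inter_comm]; exact meet_dec g1 c.2 g2 b.2
  · exact meet_dec g1 a.2 g2 d.2
  · exact meet_inc g1 a.2 g2 b.2

/-- Every two edges have at most three common points. -/
theorem three {n : ℕ} (a b c d : Fin n) (hne : ((a : ℕ), (b : ℕ)) ≠ ((c : ℕ), (d : ℕ))) :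
    (Arc n ((a : ℕ), (b : ℕ)) ∩ Arc n ((c : ℕ), (d : ℕ))).ncard ≤ 3 := by
  have hsing : ∀ (S : Set ℂ) (p : ℂ), (∀ z ∈ S, z = p) → S.ncard ≤ 3 := by
    intro S p hp
    have h1 : S ⊆ {p} := fun z hz => hp z hz
    have h2 := Set.ncard_le_ncard h1 (Set.finite_singleton p)
    rw [Set.ncard_singleton] at h2
    omega
  by_cases h1 : (a : ℕ) = c
  · rcases lt_trichotomy (b : ℕ) d with g | g | g
    · rw [h1]
      exact hsing _ (sp n c) fun z hz => arc_row (ok c b) (ok c d) g hz.1 hz.2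
    · exact absurd (by rw [h1, g]) hne
    · rw [h1]
      exact hsing _ (sp n c) fun z hz => arc_row (ok c d) (ok c b) g hz.2 hz.1
  by_cases h2 : (b : ℕ) = d
  · rw [h2]
    rcases lt_or_gt_of_ne h1 with g | g
    · exact hsing _ (ep n d) fun z hz => arc_col (ok a d) (ok c d) g hz.1 hz.2
    · exact hsing _ (ep n d) fun z hz => arc_col (ok c d) (ok a d) g hz.2 hz.1
  rcases lt_or_gt_of_ne h1 with g1 | g1 <;> rcases lt_or_gt_of_ne h2 with g2 | g2
  · rw [Set.inter_comm]; exact count_inc g1 c.2 g2 d.2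
  · exact count_dec g1 c.2 g2 b.2
  · rw [Set.inter_comm]; exact count_dec g1 a.2 g2 d.2
  · exact count_inc g1 a.2 g2 b.2

/-- Edges with a common vertex meet only there. -/
theorem adj {n : ℕ} (a b c d : Fin n) (hne : ((a : ℕ), (b : ℕ)) ≠ ((c : ℕ), (d : ℕ)))
    (w : Fin n ⊕ Fin n) (hw : w ∈ (s(Sum.inl a, Sum.inr b) : Sym2 (Fin n ⊕ Fin n)))
    (hw' : w ∈ (s(Sum.inl c, Sum.inr d) : Sym2 (Fin n ⊕ Fin n))) :
    Arc n ((a : ℕ), (b : ℕ)) ∩ Arc n ((c : ℕ), (d : ℕ)) ⊆ {vpos n w} := by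
  intro z hz
  rw [mem_singleton_iff]
  rcases Sym2.mem_iff.1 hw with rfl | rfl
  · rcases Sym2.mem_iff.1 hw' with h1 | h1
    · have hac : a = c := Sum.inl_injective h1
      subst hac
      rcases lt_trichotomy (b : ℕ) d with g | g | g
      · exact arc_row (ok a b) (ok a d) g hz.1 hz.2
      · exact absurd (by rw [g]) hne
      · exact arc_row (ok a d) (ok a b) g hz.2 hz.1
    · exact absurd h1 (by simp)
  · rcases Sym2.mem_iff.1 hw' with h1 | h1
    · exact absurd h1 (by simp)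
    · have hbd : b = d := Sum.inr_injective h1
      subst hbd
      rcases lt_trichotomy (a : ℕ) c with g | g | g
      · exact arc_col (ok a b) (ok c b) g hz.1 hz.2
      · exact absurd (by rw [g]) hne
      · exact arc_col (ok c b) (ok a b) g hz.2 hz.1

end Pool.Agent.KBip
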