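import Mathlib

/-!
# The order of the strands

The edge `(p, q)` joins the start vertex number `p` and the end vertex number `q`, `p, q < n`; it
runs around the origin twice (not completely).  `hgt n p q x` is the exponent of its height at the
node `x`; the nodes `0, ..., per n - 1` are those of the first turn.
-/

set_option autoImplicit false

namespace Pool.Agent.KBip

/-- The number of nodes of one turn. -/
def per (n : ℕ) : ℕ := 2 * (n * n) + 2 * n + 2

/-- The first node of the end vertices. -/
def ae (n : ℕ) : ℕ := n + n * n + 1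

/-- The place of a strand of the first turn at the step `t` of the sweep. -/
def s0 (n p q t : ℕ) : ℕ :=
  if p < t / n then 0
  else if p = t / n ∧ n - t % n < q then 1 + 2 * (n - t % n) else 1 + 2 * q

/-- The place of a strand of the second turn at the step `t` of the sweep. -/
def s1 (n p q t : ℕ) : ℕ :=
  if t / n < p then 2 * n + 3
  else if p = t / n ∧ q < n - t % n then 2 + 2 * (n - t % n) else 2 + 2 * q

/-- The exponent in the first turn. -/
def h0 (n p q r : ℕ) : ℕ :=
  if r = p then n * p
  else if n ≤ r ∧ r ≤ n + n * n then s0 n p q (r - n) * (n * n) + (n * p + q)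
  else n * p + q

/-- The exponent in the second turn. -/
def h1 (n p q r : ℕ) : ℕ :=
  if r = ae n + q then (2 * n + 3) * (n * n) + n * q
  else if n + n * n < r then (2 * n + 3) * (n * n) + (n * q + p)
  else if n ≤ r then s1 n p q (r - n) * (n * n) + (n * p + q)
  else (2 * n + 3) * (n * n) + (n * p + q)

/-- The exponent of the height at the node `x`. -/
def hgt (n p q x : ℕ) : ℕ := if x < per n then h0 n p q x else h1 n p q (x - per n)

theorem lex {W X Y Q Q' : ℕ} (hQ : Q < W) (h : X < Y) : X * W + Q < Y * W + Q' := by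
  have h1 : (X + 1) * W ≤ Y * W := Nat.mul_le_mul_right W h
  rw [add_mul, one_mul] at h1
  omega

theorem lex2 {W X Y Q Q' : ℕ} (hQ : Q < W) (h : X < Y ∨ (X = Y ∧ Q < Q')) :
    X * W + Q < Y * W + Q' := by
  rcases h with h | ⟨rfl, h⟩
  · exact lex hQ h
  · omega

theorem le_lex {W X Y Q Q' : ℕ} (hQ : Q < W) (h : X ≤ Y) (h' : Q < Q') :
    X * W + Q < Y * W + Q' := by
  rcases h.lt_or_eq with h | h
  · exact lex hQ h
  · exact lex2 hQ (Or.inr ⟨h, h'⟩)

theorem mod_ne {N P P' x y : ℕ} (hx : x < N) (hy : y < N) (h : x ≠ y) :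
    P * N + x ≠ P' * N + y := by
  intro he
  have h1 : (P * N + x) % N = (P' * N + y) % N := congrArg (· % N) he
  rw [Nat.mul_add_mod_self_right, Nat.mul_add_mod_self_right, Nat.mod_eq_of_lt hx,
    Nat.mod_eq_of_lt hy] at h1
  exact h h1

theorem key_unique {n x y z w : ℕ} (hy : y < n) (hw : w < n)
    (he : n * x + y = n * z + w) : x = z ∧ y = w := by
  have e1 : x = z := by
    rcases lt_trichotomy x z with hh | hh | hh
    · have := Nat.mul_le_mul_left n (show x + 1 ≤ z from hh)
      rw [mul_add] at this; omega
    · exact hh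
    · have := Nat.mul_le_mul_left n (show z + 1 ≤ x from hh)
      rw [mul_add] at this; omega
  subst e1
  exact ⟨rfl, by omega⟩

section

variable {n p q p' q' t r x : ℕ}

theorem key_lt (hp : p < n) (hq : q < n) : n * p + q < n * n := by
  have := Nat.mul_le_mul_left n (show p + 1 ≤ n from hp)
  rw [mul_add] at this
  omega

theorem key_row (hq : q < n) (h : p < p') : n * p + q < n * p' := by
  have := Nat.mul_le_mul_left n (show p + 1 ≤ p' from h)
  rw [mul_add] at this
  omega

/-- The threshold in the sweep. -/
theorem thr {m : ℕ} (hn : 0 < n) (hm : m ≤ n) (hm0 : 0 < m) :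
    t < n * p + m ↔ (t / n < p ∨ (t / n = p ∧ t % n < m)) := by
  have h1 := Nat.div_add_mod t n
  have h2 := Nat.mod_lt t hn
  rcases lt_trichotomy (t / n) p with h | h | h
  · have := Nat.mul_le_mul_left n (show t / n + 1 ≤ p from h)
    rw [mul_add] at this
    omega
  · have h3 : n * (t / n) = n * p := by rw [h]
    omega
  · have := Nat.mul_le_mul_left n (show p + 1 ≤ t / n from h)
    rw [mul_add] at this
    omega

/-- The strands of the first turn lie below those of the second turn, unless both numbers are
larger. -/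
theorem s_shift (h : p ≤ p' ∨ q ≤ q') (hq : q < n) (hq' : q' < n) (hn : 0 < n) :
    s0 n p q t < s1 n p' q' t := by
  have h2 := Nat.mod_lt t hn
  unfold s0 s1
  split_ifs <;> omega

/-- Both numbers are larger. -/
theorem s_act (hp : p < p') (hq : q < q') (hq' : q' < n) (hn : 0 < n) :
    (n * p + (n - q') < t ∧ t < n * p' + (n - q) → s1 n p q t < s0 n p' q' t) ∧
    (¬ (n * p + (n - q') < t ∧ t < n * p' + (n - q)) → s0 n p' q' t < s1 n p q t) := by
  have h2 := Nat.mod_lt t hn
  have e1 : n * p + (n - q') < t ↔ ¬ (t < n * p + (n - q' + 1)) := by omega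
  rw [e1, thr hn (by omega) (by omega), thr hn (by omega) (by omega)]
  unfold s0 s1
  constructor
  · intro h
    split_ifs <;> omega
  · intro h
    split_ifs <;> omega

theorem s0_le (h : p ≤ p') (h' : q ≤ q') : s0 n p q t ≤ s0 n p' q' t := by
  unfold s0
  split_ifs <;> omega

theorem s1_le (h : p ≤ p') (h' : q ≤ q') (hq' : q' < n) : s1 n p q t ≤ s1 n p' q' t := by
  unfold s1
  split_ifs <;> omega

/-- A larger first and a smaller second number, first turn. -/
theorem s0_dec (hp : p < p') (hq : q' < q) (hqn : q < n) (hn : 0 < n) :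
    (t < n * p + (n - q') → s0 n p' q' t < s0 n p q t) ∧
    (¬ t < n * p + (n - q') → s0 n p q t ≤ s0 n p' q' t) := by
  have h2 := Nat.mod_lt t hn
  rw [thr hn (by omega) (by omega)]
  unfold s0
  constructor
  · intro h
    split_ifs <;> omega
  · intro h
    split_ifs <;> omega

/-- A larger first and a smaller second number, second turn. -/
theorem s1_dec (hp : p < p') (hq : q' < q) (hqn : q < n) (hn : 0 < n) :
    (n * p' + (n - q) < t → s1 n p' q' t < s1 n p q t) ∧
    (¬ n * p' + (n - q) < t → s1 n p q t ≤ s1 n p' q' t) := by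
  have h2 := Nat.mod_lt t hn
  have e1 : n * p' + (n - q) < t ↔ ¬ (t < n * p' + (n - q + 1)) := by omega
  rw [e1, thr hn (by omega) (by omega)]
  unfold s1
  constructor
  · intro h
    split_ifs <;> omega
  · intro h
    split_ifs <;> omega

theorem h0_birth : h0 n p q p = n * p := by
  unfold h0
  rw [if_pos rfl]

theorem h0_sweep (hp : p < n) (ht : t ≤ n * n) :
    h0 n p q (n + t) = s0 n p q t * (n * n) + (n * p + q) := by
  unfold h0
  rw [if_neg (by omega), if_pos (by omega), Nat.add_sub_cancel_left]

theorem h0_else (h : r ≠ p) (h' : ¬ (n ≤ r ∧ r ≤ n + n * n)) : h0 n p q r = n * p + q := by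
  unfold h0
  rw [if_neg h, if_neg h']

theorem h1_end : h1 n p q (ae n + q) = (2 * n + 3) * (n * n) + n * q := by
  unfold h1
  rw [if_pos rfl]

theorem h1_late (h : r ≠ ae n + q) (h' : n + n * n < r) :
    h1 n p q r = (2 * n + 3) * (n * n) + (n * q + p) := by
  unfold h1
  rw [if_neg h, if_pos h']

theorem h1_sweep (ht : t ≤ n * n) :
    h1 n p q (n + t) = s1 n p q t * (n * n) + (n * p + q) := by
  unfold h1 ae
  rw [if_neg (by omega), if_neg (by omega), if_pos (by omega), Nat.add_sub_cancel_left]

theorem h1_early (h : r < n) : h1 n p q r = (2 * n + 3) * (n * n) + (n * p + q) := by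
  unfold h1 ae
  rw [if_neg (by omega), if_neg (by omega), if_neg (by omega)]

/-- The kinds of nodes. -/
theorem kinds (n r : ℕ) : r < n ∨ (∃ t, t ≤ n * n ∧ r = n + t) ∨ n + n * n < r := by
  rcases Nat.lt_or_ge r n with h | h
  · exact Or.inl h
  · rcases Nat.lt_or_ge (n + n * n) r with h' | h'
    · exact Or.inr (Or.inr h')
    · exact Or.inr (Or.inl ⟨r - n, by omega, by omega⟩)

theorem big_mul (n k : ℕ) : n * n ≤ (2 * n + 3) * (n * n) + k := by
  have : 1 * (n * n) ≤ (2 * n + 3) * (n * n) := Nat.mul_le_mul_right _ (by omega)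
  omega

/-- The first turn lies below the second turn, unless both numbers are larger. -/
theorem shift_lt (hp : p < n) (hq : q < n) (hq' : q' < n) (h : p ≤ p' ∨ q ≤ q') (r : ℕ) :
    h0 n p q r < h1 n p' q' r := by
  have hn : 0 < n := by omega
  have hk := key_lt hp hq
  have hk' : n * p < n * n := by omega
  have hb := big_mul n
  rcases kinds n r with hr | ⟨t, ht, rfl⟩ | hr
  · rw [h1_early hr]
    have h1 : h0 n p q r < n * n := by
      by_cases hrp : r = p
      · rw [hrp, h0_birth]; exact hk'
      · rw [h0_else hrp (by omega)]; exact hk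
    exact h1.trans_le (hb _)
  · rw [h0_sweep hp ht, h1_sweep ht]
    exact lex hk (s_shift h hq hq' hn)
  · rw [h0_else (by omega) (by omega)]
    by_cases hre : r = ae n + q'
    · rw [hre, h1_end]
      exact hk.trans_le (hb _)
    · rw [h1_late hre hr]
      exact hk.trans_le (hb _)

/-- The shift of two strands, both numbers of the first one are larger. -/
theorem shift_act (hp : p < p') (hp' : p' < n) (hq : q < q') (hq' : q' < n) :
    (∀ t ≤ n * n, n * p + (n - q') < t ∧ t < n * p' + (n - q) →
      h1 n p q (n + t) < h0 n p' q' (n + t)) ∧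
    (∀ r, ¬ (n + (n * p + (n - q')) < r ∧ r < n + (n * p' + (n - q))) →
      h0 n p' q' r < h1 n p q r) := by
  have hn : 0 < n := by omega
  have hk := key_lt hp' hq'
  have hk1 := key_lt (show p < n by omega) (show q < n by omega)
  have hk' : n * p' < n * n := by omega
  have hb := big_mul n
  constructor
  · intro t ht h
    rw [h0_sweep hp' ht, h1_sweep ht]
    exact lex hk1 ((s_act hp hq hq' hn).1 h)
  · intro r h
    rcases kinds n r with hr | ⟨t, ht, rfl⟩ | hr
    · rw [h1_early hr]
      have h1 : h0 n p' q' r < n * n := by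
        by_cases hrp : r = p'
        · rw [hrp, h0_birth]; exact hk'
        · rw [h0_else hrp (by omega)]; exact hk
      exact h1.trans_le (hb _)
    · rw [h0_sweep hp' ht, h1_sweep ht]
      exact lex hk ((s_act hp hq hq' hn).2 (by omega))
    · rw [h0_else (by omega) (by omega)]
      by_cases hre : r = ae n + q
      · rw [hre, h1_end]
        exact hk.trans_le (hb _)
      · rw [h1_late hre hr]
        exact hk.trans_le (hb _)

/-- Same row, first turn. -/
theorem row0 (hp : p < n) (hq : q < q') (hq' : q' < n) (hr : r ≠ p) :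
    h0 n p q r < h0 n p q' r := by
  have hk := key_lt hp (show q < n by omega)
  rcases kinds n r with hr' | ⟨t, ht, rfl⟩ | hr'
  · rw [h0_else hr (by omega), h0_else hr (by omega)]; omega
  · rw [h0_sweep hp ht, h0_sweep hp ht]
    exact le_lex hk (s0_le le_rfl hq.le) (by omega)
  · rw [h0_else hr (by omega), h0_else hr (by omega)]; omega

/-- Same row, second turn. -/
theorem row1 (hp : p < n) (hq : q < q') (hq' : q' < n) (hr : r ≤ ae n + q) :
    h1 n p q r < h1 n p q' r := by
  have hk := key_lt hp (show q < n by omega)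
  have hy := key_row hp hq
  rcases kinds n r with hr' | ⟨t, ht, rfl⟩ | hr'
  · rw [h1_early hr', h1_early hr']; omega
  · rw [h1_sweep ht, h1_sweep ht]
    exact le_lex hk (s1_le le_rfl hq.le hq') (by omega)
  · rw [h1_late (q := q') (by omega) hr']
    by_cases hre : r = ae n + q
    · rw [hre, h1_end]; omega
    · rw [h1_late hre hr']; omega

/-- Same column or both larger, first turn. -/
theorem col0 (hp : p < p') (hp' : p' < n) (hq : q ≤ q') (hq' : q' < n) (hr : p' ≤ r) :
    h0 n p q r < h0 n p' q' r := by
  have hk := key_lt (show p < n by omega) (show q < n by omega)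
  have hy := key_row (show q < n by omega) hp
  rcases kinds n r with hr' | ⟨t, ht, rfl⟩ | hr'
  · rw [h0_else (by omega) (by omega)]
    by_cases hre : r = p'
    · rw [hre, h0_birth]; exact hy
    · rw [h0_else hre (by omega)]; omega
  · rw [h0_sweep (by omega) ht, h0_sweep hp' ht]
    exact le_lex hk (s0_le hp.le hq) (by omega)
  · rw [h0_else (by omega) (by omega), h0_else (by omega) (by omega)]; omega

/-- Same column, second turn. -/
theorem col1 (hp : p < p') (hp' : p' < n) (hq : q < n) (hr : r ≠ ae n + q) :
    h1 n p q r < h1 n p' q r := by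
  have hk := key_lt (show p < n by omega) hq
  have hy := key_row hq hp
  rcases kinds n r with hr' | ⟨t, ht, rfl⟩ | hr'
  · rw [h1_early hr', h1_early hr']; omega
  · rw [h1_sweep ht, h1_sweep ht]
    exact le_lex hk (s1_le hp.le le_rfl hq) (by omega)
  · rw [h1_late hr hr', h1_late hr hr']; omega

/-- Both larger, second turn. -/
theorem inc1 (hp : p < p') (hp' : p' < n) (hq : q < q') (hq' : q' < n) (hr : r ≤ ae n + q) :
    h1 n p q r < h1 n p' q' r := by
  have hk := key_lt (show p < n by omega) (show q < n by omega)
  have hy := key_row (show q < n by omega) hp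
  have hy' := key_row (show p < n by omega) hq
  rcases kinds n r with hr' | ⟨t, ht, rfl⟩ | hr'
  · rw [h1_early hr', h1_early hr']; omega
  · rw [h1_sweep ht, h1_sweep ht]
    exact le_lex hk (s1_le hp.le hq.le hq') (by omega)
  · rw [h1_late (q := q') (by omega) hr']
    by_cases hre : r = ae n + q
    · rw [hre, h1_end]; omega
    · rw [h1_late hre hr']; omega

/-- A larger first and a smaller second number, first turn. -/
theorem dec0 (hp : p < p') (hp' : p' < n) (hq : q' < q) (hqn : q < n) :
    (∀ r, n ≤ r → r < n + (n * p + (n - q')) → h0 n p' q' r < h0 n p q r) ∧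
    (∀ r, p' ≤ r → (r < n ∨ n + (n * p + (n - q')) ≤ r) → h0 n p q r < h0 n p' q' r) := by
  have hn : 0 < n := by omega
  have hk := key_lt (show p < n by omega) hqn
  have hk' := key_lt hp' (show q' < n by omega)
  have hy := key_row hqn hp
  have hpn : n * p + (n - q') ≤ n * n := by
    have := Nat.mul_le_mul_left n (show p + 1 ≤ n by omega)
    rw [mul_add] at this
    omega
  constructor
  · intro r h1 h2
    obtain ⟨t, rfl⟩ := Nat.exists_eq_add_of_le h1
    rw [h0_sweep hp' (by omega), h0_sweep (p := p) (by omega) (by omega)]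
    exact lex hk' ((s0_dec hp hq hqn hn).1 (by omega))
  · intro r h1 h2
    rcases kinds n r with hr' | ⟨t, ht, rfl⟩ | hr'
    · rw [h0_else (by omega) (by omega)]
      by_cases hre : r = p'
      · rw [hre, h0_birth]; exact hy
      · rw [h0_else hre (by omega)]; omega
    · rw [h0_sweep (by omega) ht, h0_sweep hp' ht]
      exact le_lex hk ((s0_dec hp hq hqn hn).2 (by omega)) (by omega)
    · rw [h0_else (by omega) (by omega), h0_else (by omega) (by omega)]; omega

/-- A larger first and a smaller second number, second turn. -/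
theorem dec1 (hp : p < p') (hp' : p' < n) (hq : q' < q) (hqn : q < n) :
    (∀ r, n + (n * p' + (n - q)) < r → r ≤ ae n + q' → h1 n p' q' r < h1 n p q r) ∧
    (∀ r, r ≤ n + (n * p' + (n - q)) → h1 n p q r < h1 n p' q' r) := by
  have hn : 0 < n := by omega
  have hk := key_lt (show p < n by omega) hqn
  have hk' := key_lt hp' (show q' < n by omega)
  have hy := key_row hqn hp
  have hy' := key_row hp' hq
  have hpn : n * p' + (n - q) ≤ n * n := by
    have := Nat.mul_le_mul_left n (show p' + 1 ≤ n by omega)
    rw [mul_add] at this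
    omega
  constructor
  · intro r h1 h2
    rcases kinds n r with hr' | ⟨t, ht, rfl⟩ | hr'
    · omega
    · rw [h1_sweep ht, h1_sweep ht]
      exact lex hk' ((s1_dec hp hq hqn hn).1 (by omega))
    · rw [h1_late (q := q) (by omega) hr']
      by_cases hre : r = ae n + q'
      · rw [hre, h1_end]; omega
      · rw [h1_late hre hr']; omega
  · intro r h1
    rcases kinds n r with hr' | ⟨t, ht, rfl⟩ | hr'
    · rw [h1_early hr', h1_early hr']; omega
    · rw [h1_sweep ht, h1_sweep ht]
      exact le_lex hk ((s1_dec hp hq hqn hn).2 (by omega)) (by omega)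
    · omega

end

end Pool.Agent.KBip
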