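import Pool.Agent.Hhelper93.KBip.Draw

/-!
# Crossings
-/

set_option autoImplicit false

namespace Pool.Agent.KBip

open Set
open Pool.Agent.CLow

/-- The unit interval between the nodes `m` and `m + 1` belongs to both edges, after a shift. -/
def Both (n : ℕ) (e f : ℕ × ℕ) (k m : ℤ) : Prop :=
  (e.1 : ℤ) ≤ m ∧ m + 1 ≤ fin n e ∧ (f.1 : ℤ) ≤ m + k * per n ∧ m + 1 + k * per n ≤ fin n f

/-- Two strands are not equal at both ends of a unit interval. -/
theorem both_ne {n : ℕ} {e f : ℕ × ℕ} (he : Ok n e) (hf : Ok n f) (hne : e ≠ f) {k m : ℤ}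
    (hk : k = 0 ∨ k = 1 ∨ k = -1) (hb : Both n e f k m)
    (h1 : nd n e m = nd n f (m + k * per n))
    (h2 : nd n e (m + 1) = nd n f (m + 1 + k * per n)) : False := by
  obtain ⟨b1, b2, b3, b4⟩ := hb
  obtain ⟨-, n1⟩ := node_ne he hf hk (Or.inl hne) b1 (by omega) b3 (by omega) h1
  obtain ⟨-, n2⟩ := node_ne he hf hk (Or.inl hne) (m := m + 1) (by omega) b2 (by omega) b4 h2
  rcases n1 with ⟨n1, n1'⟩ | ⟨n1, n1'⟩ <;> rcases n2 with ⟨n2, n2'⟩ | ⟨n2, n2'⟩
  · omega
  · exact hne (Prod.ext n1' n2')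
  · omega
  · omega

/-- A common parameter lies in a unit interval of both edges, or it is a vertex. -/
theorem locate {n : ℕ} {e f : ℕ × ℕ} (he : Ok n e) (hf : Ok n f) (hne : e ≠ f) {u : ℝ} {k : ℤ}
    (h1 : (e.1 : ℝ) ≤ u) (h2 : u ≤ fin n e) (h3 : (f.1 : ℝ) ≤ u + k * per n)
    (h4 : u + k * per n ≤ fin n f) (hpl : pl (nd n e) u = pl (nd n f) (u + k * per n)) :
    (pt n e (ang n u) = sp n e.1 ∧ e.1 = f.1) ∨ (pt n e (ang n u) = ep n e.2 ∧ e.2 = f.2) ∨
      ((⌊u⌋ : ℝ) < u ∧ Both n e f k ⌊u⌋) := by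
  have hk := shift_cases he hf h1 h2 h3 h4
  set m := ⌊u⌋ with hm
  have hm2 : (m : ℝ) ≤ u := Int.floor_le u
  have hm3 : u < m + 1 := Int.lt_floor_add_one u
  rcases hm2.lt_or_eq with hlt | heq
  · right; right
    refine ⟨hlt, Int.le_floor.2 (by exact_mod_cast h1), ?_, ?_, ?_⟩
    · have : (m : ℝ) < fin n e := hlt.trans_le h2
      have : m < fin n e := by exact_mod_cast this
      omega
    · have : ((f.1 : ℤ) - k * per n : ℤ) ≤ m := by
        rw [hm]
        refine Int.le_floor.2 ?_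
        push_cast
        linarith
      omega
    · have : (m : ℝ) < ((fin n f : ℤ) - k * per n : ℤ) := by
        push_cast
        linarith
      have : m < (fin n f : ℤ) - k * per n := by exact_mod_cast this
      omega
  · rw [← heq] at hpl h1 h2 h3 h4 ⊢
    have e1 : (m : ℝ) + k * per n = ((m + k * per n : ℤ) : ℝ) := by push_cast; ring
    rw [e1, pl_int, pl_int] at hpl
    obtain ⟨-, n1⟩ := node_ne he hf hk (Or.inl hne) (m := m) (by exact_mod_cast h1)
      (by exact_mod_cast h2) (by exact_mod_cast h3) (by exact_mod_cast h4) hpl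
    rcases n1 with ⟨n1, n1'⟩ | ⟨n1, n1'⟩
    · left
      refine ⟨?_, n1'⟩
      rw [n1]
      exact_mod_cast start_pt he
    · right; left
      refine ⟨?_, n1'⟩
      rw [n1]
      exact_mod_cast end_pt (n := n) e

/-- The difference on a unit interval. -/
theorem diff_eq {n : ℕ} (e f : ℕ × ℕ) (k m : ℤ) {v : ℝ} (hv : v ∈ Icc (m : ℝ) (m + 1)) :
    pl (nd n e) v - pl (nd n f) (v + k * per n) =
      (nd n e m - nd n f (m + k * per n)) + ((nd n e (m + 1) - nd n f (m + 1 + k * per n)) -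
        (nd n e m - nd n f (m + k * per n))) * (v - m) := by
  rw [pl_sh, pl_eq _ m hv, pl_eq _ m hv]
  ring

theorem mem_arc {n : ℕ} {e : ℕ × ℕ} {v : ℝ} (h1 : (e.1 : ℝ) ≤ v) (h2 : v ≤ fin n e) :
    pt n e (ang n v) ∈ Arc n e := ⟨ang n v, ⟨ang_le.2 h1, ang_le.2 h2⟩, rfl⟩

theorem ang_shift (n : ℕ) (u : ℝ) (k : ℤ) :
    ang n (u + k * per n) = ang n u + k * (2 * Real.pi) := by
  rw [← ang_per n]; unfold ang; ring

/-- Crossings are proper. -/
theorem proper_cross {n : ℕ} {e f : ℕ × ℕ} (he : Ok n e) (hf : Ok n f) (hne : e ≠ f) {z : ℂ}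
    (hz : z ∈ Arc n e) (hz' : z ∈ Arc n f) :
    (z = sp n e.1 ∧ e.1 = f.1) ∨ (z = ep n e.2 ∧ e.2 = f.2) ∨
      CLow3.CrossAt 0 (Arc n e) (Arc n f) z ∨ CLow3.CrossAt 0 (Arc n f) (Arc n e) z := by
  obtain ⟨s, hs, rfl⟩ := hz
  obtain ⟨u, rfl⟩ := exists_ang n s
  simp only [Set.mem_Icc, ang_le] at hs
  obtain ⟨k, hk1, hk2, hpl⟩ := common hz'
  have hk := shift_cases he hf hs.1 hs.2 hk1 hk2
  rcases locate he hf hne hs.1 hs.2 hk1 hk2 hpl with hh | hh | ⟨hlt, hb⟩
  · exact Or.inl hh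
  · exact Or.inr (Or.inl hh)
  · right; right
    set m := ⌊u⌋ with hm
    have hm3 : u < m + 1 := Int.lt_floor_add_one u
    have hu : u ∈ Icc (m : ℝ) (m + 1) := ⟨hlt.le, hm3.le⟩
    have hd := diff_eq (n := n) e f k m hu
    have hbn := both_ne he hf hne hk hb
    obtain ⟨b1, b2, b3, b4⟩ := hb
    set α := nd n e m - nd n f (m + k * per n) with hα
    set β := nd n e (m + 1) - nd n f (m + 1 + k * per n) with hβ
    rw [hpl, sub_self] at hd
    have hdiff : ∀ v ∈ Icc (m : ℝ) (m + 1), pl (nd n e) v - pl (nd n f) (v + k * per n) =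
        (β - α) * (v - u) := by
      intro v hv
      rw [diff_eq e f k m hv, ← hα, ← hβ]
      linarith
    have hne0 : β - α ≠ 0 := by
      intro hh
      have ha0 : α = 0 := by rw [hh] at hd; linarith
      have hb0 : β = 0 := by rw [ha0] at hh; linarith
      exact hbn (by linarith) (by linarith)
    have q1 : ((e.1 : ℕ) : ℝ) ≤ m := by exact_mod_cast b1
    have q2 : (m : ℝ) + 1 ≤ fin n e := by exact_mod_cast b2
    have q3 : ((f.1 : ℕ) : ℝ) ≤ m + k * per n := by exact_mod_cast b3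
    have q4 : (m : ℝ) + 1 + k * per n ≤ fin n f := by exact_mod_cast b4
    have hmemT : ∀ s ∈ Icc (ang n m) (ang n (m + 1)), (0 : ℂ) + (rho n e s : ℂ) *
        Complex.exp ((s : ℝ) * Complex.I) ∈ Arc n e := by
      intro s hs'
      obtain ⟨v, rfl⟩ := exists_ang n s
      simp only [Set.mem_Icc, ang_le] at hs'
      exact mem_arc (by linarith [hs'.1]) (by linarith [hs'.2])
    have hmemS : ∀ s ∈ Icc (ang n m) (ang n (m + 1)),
        (0 : ℂ) + (rho n f (s + k * (2 * Real.pi)) : ℂ) *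
        Complex.exp ((s : ℝ) * Complex.I) ∈ Arc n f := by
      intro s hs'
      obtain ⟨v, rfl⟩ := exists_ang n s
      simp only [Set.mem_Icc, ang_le] at hs'
      have h5 := mem_arc (n := n) (e := f) (v := v + k * per n) (by linarith [hs'.1])
        (by linarith [hs'.2])
      unfold pt at h5
      rwa [exp_per, ang_shift] at h5
    have hx1 : ang n m < ang n u := ang_lt.2 hlt
    have hx2 : ang n u < ang n (m + 1) := ang_lt.2 hm3
    have hrho : rho n e (ang n u) = rho n f (ang n u + k * (2 * Real.pi)) := by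
      rw [← ang_shift, rho_ang, rho_ang, hpl]
    have hcf : ContinuousOn (fun s => rho n f (s + k * (2 * Real.pi)))
        (Icc (ang n m) (ang n (m + 1))) :=
      ((rho_cont n f).comp (continuous_id.add continuous_const)).continuousOn
    rcases lt_or_gt_of_ne hne0 with hneg | hpos
    · right
      refine ⟨ang n m, ang n u, ang n (m + 1), fun s => rho n f (s + k * (2 * Real.pi)),
        rho n e, hx1, hx2, hcf, (rho_cont n _).continuousOn,
        fun s hs' => ⟨rho_pos n _ _, rho_pos n _ _, hmemS s hs', hmemT s hs'⟩, ?_, hrho.symm,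
        ?_, ?_⟩
      · beta_reduce
        rw [← hrho]
        rfl
      · intro s hs'
        obtain ⟨v, rfl⟩ := exists_ang n s
        simp only [Set.mem_Ico, ang_le, ang_lt] at hs'
        beta_reduce
        rw [← ang_shift, rho_ang, rho_ang, Real.exp_lt_exp]
        have := hdiff v ⟨hs'.1, by linarith [hs'.2]⟩
        nlinarith [hs'.2]
      · intro s hs'
        obtain ⟨v, rfl⟩ := exists_ang n s
        simp only [Set.mem_Ioc, ang_le, ang_lt] at hs'
        beta_reduce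
        rw [← ang_shift, rho_ang, rho_ang, Real.exp_lt_exp]
        have := hdiff v ⟨by linarith [hs'.1], hs'.2⟩
        nlinarith [hs'.1]
    · left
      refine ⟨ang n m, ang n u, ang n (m + 1), rho n e,
        fun s => rho n f (s + k * (2 * Real.pi)), hx1, hx2,
        (rho_cont n _).continuousOn, hcf,
        fun s hs' => ⟨rho_pos n _ _, rho_pos n _ _, hmemT s hs', hmemS s hs'⟩, rfl, hrho,
        ?_, ?_⟩
      · intro s hs'
        obtain ⟨v, rfl⟩ := exists_ang n s
        simp only [Set.mem_Ico, ang_le, ang_lt] at hs'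
        beta_reduce
        rw [← ang_shift, rho_ang, rho_ang, Real.exp_lt_exp]
        have := hdiff v ⟨hs'.1, by linarith [hs'.2]⟩
        nlinarith [hs'.2]
      · intro s hs'
        obtain ⟨v, rfl⟩ := exists_ang n s
        simp only [Set.mem_Ioc, ang_le, ang_lt] at hs'
        beta_reduce
        rw [← ang_shift, rho_ang, rho_ang, Real.exp_lt_exp]
        have := hdiff v ⟨by linarith [hs'.1], hs'.2⟩
        nlinarith [hs'.1]

/-- The common points in the unit interval between the nodes `m` and `m + 1`, after a shift. -/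
def Com (n : ℕ) (e f : ℕ × ℕ) (k m : ℤ) : Set ℂ :=
  {z | Both n e f k m ∧ ∃ u ∈ Icc (m : ℝ) (m + 1), pl (nd n e) u = pl (nd n f) (u + k * per n) ∧
    z = pt n e (ang n u)}

/-- There is one such point at most. -/
theorem com_sub {n : ℕ} {e f : ℕ × ℕ} (he : Ok n e) (hf : Ok n f) (hne : e ≠ f) {k : ℤ}
    (hk : k = 0 ∨ k = 1 ∨ k = -1) (m : ℤ) : (Com n e f k m).Subsingleton := by
  rintro z ⟨hb, u, hu, hpl, rfl⟩ z' ⟨-, u', hu', hpl', rfl⟩
  have hd := diff_eq (n := n) e f k m hu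
  have hd' := diff_eq (n := n) e f k m hu'
  have hbn := both_ne he hf hne hk hb
  set α := nd n e m - nd n f (m + k * per n) with hα
  set β := nd n e (m + 1) - nd n f (m + 1 + k * per n) with hβ
  rw [hpl, sub_self] at hd
  rw [hpl', sub_self] at hd'
  have hne0 : β - α ≠ 0 := by
    intro hh
    have ha0 : α = 0 := by rw [hh] at hd; linarith
    have hb0 : β = 0 := by rw [ha0] at hh; linarith
    exact hbn (by linarith) (by linarith)
  have e3 : (β - α) * (u - u') = 0 := by linarith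
  rcases mul_eq_zero.1 e3 with e5 | e5
  · exact absurd e5 hne0
  · rw [show u = u' by linarith]

/-- The order of two strands is the same at both ends of a unit interval. -/
def Keep (n : ℕ) (e f : ℕ × ℕ) (k m : ℤ) : Prop :=
  (nd n e m < nd n f (m + k * per n) ∧ nd n e (m + 1) < nd n f (m + 1 + k * per n)) ∨
  (nd n f (m + k * per n) < nd n e m ∧ nd n f (m + 1 + k * per n) < nd n e (m + 1))

/-- Then there is no common point. -/
theorem keep_empty {n : ℕ} {e f : ℕ × ℕ} {k m : ℤ} (h : Keep n e f k m) :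
    Com n e f k m = ∅ := by
  rw [Set.eq_empty_iff_forall_notMem]
  rintro z ⟨-, u, hu, hpl, -⟩
  have hd := diff_eq (n := n) e f k m hu
  rw [hpl, sub_self] at hd
  have t0 : 0 ≤ u - m := by linarith [hu.1]
  have t1 : 0 ≤ 1 - (u - m) := by linarith [hu.2]
  have t2 : (1 - (u - m)) * (nd n e m - nd n f (m + k * per n)) +
      (u - m) * (nd n e (m + 1) - nd n f (m + 1 + k * per n)) = 0 := by linarith
  rcases h with ⟨h1, h2⟩ | ⟨h1, h2⟩
  · rcases t0.lt_or_eq with t3 | t3
    · nlinarith [mul_nonneg t1 (sub_pos.2 h1).le, mul_pos t3 (sub_pos.2 h2)]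
    · rw [← t3] at t2
      linarith
  · rcases t0.lt_or_eq with t3 | t3
    · nlinarith [mul_nonneg t1 (sub_pos.2 h1).le, mul_pos t3 (sub_pos.2 h2)]
    · rw [← t3] at t2
      linarith

/-- Two edges have finitely many common points; the common points without the vertices. -/
theorem inter_sub {n : ℕ} {e f : ℕ × ℕ} (he : Ok n e) (hf : Ok n f) (hne : e ≠ f) {z : ℂ}
    (hz : z ∈ Arc n e) (hz' : z ∈ Arc n f) :
    (z = sp n e.1 ∧ e.1 = f.1) ∨ (z = ep n e.2 ∧ e.2 = f.2) ∨
      ∃ k m : ℤ, (k = 0 ∨ k = 1 ∨ k = -1) ∧ z ∈ Com n e f k m := by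
  obtain ⟨s, hs, rfl⟩ := hz
  obtain ⟨u, rfl⟩ := exists_ang n s
  simp only [Set.mem_Icc, ang_le] at hs
  obtain ⟨k, hk1, hk2, hpl⟩ := common hz'
  have hk := shift_cases he hf hs.1 hs.2 hk1 hk2
  rcases locate he hf hne hs.1 hs.2 hk1 hk2 hpl with hh | hh | ⟨hlt, hb⟩
  · exact Or.inl hh
  · exact Or.inr (Or.inl hh)
  · exact Or.inr (Or.inr ⟨k, ⌊u⌋, hk, hb, u, ⟨hlt.le, (Int.lt_floor_add_one u).le⟩, hpl, rfl⟩)

/-- Two edges have finitely many common points. -/
theorem finite_inter {n : ℕ} {e f : ℕ × ℕ} (he : Ok n e) (hf : Ok n f) (hne : e ≠ f) :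
    (Arc n e ∩ Arc n f).Finite := by
  have hfin : (⋃ k ∈ ({0, 1, -1} : Finset ℤ), ⋃ m ∈ Finset.Icc (0 : ℤ) (2 * per n),
      Com n e f k m).Finite := by
    refine Set.Finite.biUnion (Finset.finite_toSet _) fun k hk => ?_
    refine Set.Finite.biUnion (Finset.finite_toSet _) fun m _ => ?_
    exact (com_sub he hf hne (by simpa using hk) m).finite
  refine (((Set.finite_singleton (sp n e.1)).union (Set.finite_singleton (ep n e.2))).union
    hfin).subset ?_
  rintro z ⟨hz, hz'⟩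
  rcases inter_sub he hf hne hz hz' with ⟨h1, -⟩ | ⟨h1, -⟩ | ⟨k, m, hk, hm⟩
  · exact Or.inl (Or.inl h1)
  · exact Or.inl (Or.inr h1)
  · right
    have h1 := fin_lt he
    have hm' := hm
    obtain ⟨⟨b1, b2, -, -⟩, -⟩ := hm'
    simp only [Set.mem_iUnion]
    refine ⟨k, by simpa using hk, m, ?_, hm⟩
    rw [Finset.mem_Icc]
    omega

/-- Three lines are not concurrent. -/
theorem core {B x1 x2 x3 y1 y2 y3 : ℕ} {s t : ℝ} (hs : 0 < s) (ht : 0 < t)
    (h1 : s * x1 + t * y1 = s * x2 + t * y2) (h2 : s * x2 + t * y2 = s * x3 + t * y3)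
    (b1 : x1 < B) (b2 : x2 < B) (b3 : x3 < B)
    (o12 : y1 < y2 → (B + 1) * y1 ≤ y2) (o21 : y2 < y1 → (B + 1) * y2 ≤ y1)
    (o13 : y1 < y3 → (B + 1) * y1 ≤ y3) (o31 : y3 < y1 → (B + 1) * y3 ≤ y1)
    (o23 : y2 < y3 → (B + 1) * y2 ≤ y3) (o32 : y3 < y2 → (B + 1) * y3 ≤ y2)
    (n12 : ¬ (x1 = x2 ∧ y1 = y2)) (n23 : ¬ (x2 = x3 ∧ y2 = y3)) (n13 : ¬ (x1 = x3 ∧ y1 = y3)) :
    False := by
  have hd : ∀ x y x' y' : ℕ, s * x + t * y = s * x' + t * y' → ¬ (x = x' ∧ y = y') → y ≠ y' := by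
    intro x y x' y' h hn hy
    apply hn
    refine ⟨?_, hy⟩
    rw [hy] at h
    have := add_right_cancel h
    have := mul_left_cancel₀ hs.ne' this
    exact_mod_cast this
  have d1 := hd _ _ _ _ h1 n12
  have d2 := hd _ _ _ _ h2 n23
  have d3 := hd _ _ _ _ (h1.trans h2) n13
  rcases lt_or_gt_of_ne d1 with x12 | x12 <;> rcases lt_or_gt_of_ne d2 with x23 | x23 <;>
    rcases lt_or_gt_of_ne d3 with x13 | x13
  · exact CLow3.conc hs ht h1 h2 x12 x23 (o23 x23) b2
  · omega
  · exact CLow3.conc hs ht (h1.trans h2) h2.symm x13 x23 (o32 x23) b3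
  · exact CLow3.conc hs ht (h1.trans h2).symm h1 x13 x12 (o12 x12) b1
  · exact CLow3.conc hs ht h1.symm (h1.trans h2) x12 x13 (o13 x13) b1
  · exact CLow3.conc hs ht h2 (h1.trans h2).symm x23 x13 (o31 x13) b3
  · omega
  · exact CLow3.conc hs ht h2.symm h1.symm x23 x12 (o21 x12) b2

end Pool.Agent.KBip
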