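import Pool.Agent.Hhelper93.KBip.Hgt
import Pool.Agent.Hhelper93.CLow.PL

/-!
# The heights at the nodes
-/

set_option autoImplicit false

namespace Pool.Agent.KBip

open Set
open Pool.Agent.CLow

/-- A bound of the exponents. -/
def top (n : ℕ) : ℕ := (2 * n + 4) * (n * n) + 1

/-- A number which is larger than all heights at the even nodes. -/
def big (n : ℕ) : ℕ := 2 ^ top n

/-- The base of the powers. -/
def bs (n x : ℕ) : ℕ := if x % 2 = 0 then 2 else big n + 1

/-- The height at the node `x`. -/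
def vl (n : ℕ) (e : ℕ × ℕ) (x : ℕ) : ℕ := bs n x ^ hgt n e.1 e.2 x

/-- The height at an integer. -/
noncomputable def nd (n : ℕ) (e : ℕ × ℕ) (j : ℤ) : ℝ := (vl n e j.toNat : ℝ)

/-- The last node of an edge. -/
def fin (n : ℕ) (e : ℕ × ℕ) : ℕ := per n + ae n + e.2

/-- The pairs of numbers of the edges. -/
def Ok (n : ℕ) (e : ℕ × ℕ) : Prop := e.1 < n ∧ e.2 < n

theorem fin_lt {n : ℕ} {e : ℕ × ℕ} (h : Ok n e) : fin n e < 2 * per n := by
  have := h.2
  unfold fin ae per
  omega

theorem start_lt {n : ℕ} {e : ℕ × ℕ} (h : Ok n e) : e.1 < per n := by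
  have := h.1
  unfold per
  omega

theorem per_even (n : ℕ) : per n % 2 = 0 := by
  unfold per
  omega

theorem per_pos (n : ℕ) : 0 < per n := by unfold per; omega

theorem one_lt_bs (n x : ℕ) : 1 < bs n x := by
  have : 0 < big n := by unfold big; positivity
  unfold bs
  split_ifs <;> omega

theorem bs_per (n x : ℕ) : bs n (x + per n) = bs n x := by
  have := per_even n
  unfold bs
  rw [show (x + per n) % 2 = x % 2 by omega]

theorem s0_bd {n p q t : ℕ} (hq : q < n) : s0 n p q t ≤ 2 * n + 3 := by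
  unfold s0
  split_ifs <;> omega

theorem s1_bd {n p q t : ℕ} (hq : q < n) : s1 n p q t ≤ 2 * n + 3 := by
  unfold s1
  split_ifs <;> omega

theorem h0_lt {n p q : ℕ} (hp : p < n) (hq : q < n) (r : ℕ) : h0 n p q r < top n := by
  have hk := key_lt hp hq
  have h1 : (2 * n + 4) * (n * n) = (2 * n + 3) * (n * n) + n * n := by ring
  rcases kinds n r with hr | ⟨t, ht, rfl⟩ | hr
  · by_cases hrp : r = p
    · rw [hrp, h0_birth]; unfold top; omega
    · rw [h0_else hrp (by omega)]; unfold top; omega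
  · rw [h0_sweep hp ht]
    have := Nat.mul_le_mul_right (n * n) (s0_bd (p := p) (t := t) hq)
    unfold top; omega
  · rw [h0_else (by omega) (by omega)]; unfold top; omega

theorem h1_lt {n p q : ℕ} (hp : p < n) (hq : q < n) (r : ℕ) : h1 n p q r < top n := by
  have hk := key_lt hp hq
  have hk' := key_lt hq hp
  have h1 : (2 * n + 4) * (n * n) = (2 * n + 3) * (n * n) + n * n := by ring
  rcases kinds n r with hr | ⟨t, ht, rfl⟩ | hr
  · rw [h1_early hr]; unfold top; omega
  · rw [h1_sweep ht]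
    have := Nat.mul_le_mul_right (n * n) (s1_bd (p := p) (t := t) hq)
    unfold top; omega
  · by_cases hre : r = ae n + q
    · rw [hre, h1_end]; unfold top; omega
    · rw [h1_late hre hr]; unfold top; omega

theorem hgt_lt {n : ℕ} {e : ℕ × ℕ} (h : Ok n e) (x : ℕ) : hgt n e.1 e.2 x < top n := by
  unfold hgt
  split_ifs
  · exact h0_lt h.1 h.2 _
  · exact h1_lt h.1 h.2 _

theorem hgt_0 {n p q x : ℕ} (h : x < per n) : hgt n p q x = h0 n p q x := by
  unfold hgt
  rw [if_pos h]

theorem hgt_1 {n p q x : ℕ} : hgt n p q (x + per n) = h1 n p q x := by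
  unfold hgt
  rw [if_neg (by omega), Nat.add_sub_cancel]

theorem ne00 {n p q p' q' r : ℕ} (hp : p < n) (hq : q < n) (hp' : p' < n) (hq' : q' < n)
    (hne : ¬ (p = p' ∧ q = q')) (hr : ¬ (r = p ∧ p = p')) : h0 n p q r ≠ h0 n p' q' r := by
  have hk := key_lt hp hq
  have hk' := key_lt hp' hq'
  have hkk : n * p + q ≠ n * p' + q' := fun he => hne (key_unique hq hq' he)
  rcases kinds n r with hr' | ⟨t, ht, rfl⟩ | hr'
  · by_cases h1 : r = p
    · by_cases h2 : r = p'
      · omega
      · rw [h0_else h2 (by omega), h1, h0_birth]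
        intro he
        have := key_unique (n := n) (x := p) (y := 0) (z := p') (w := q') (by omega) hq' he
        omega
    · by_cases h2 : r = p'
      · rw [h0_else h1 (by omega), h2, h0_birth]
        intro he
        have := key_unique (n := n) (x := p) (y := q) (z := p') (w := 0) hq (by omega) he
        omega
      · rw [h0_else h1 (by omega), h0_else h2 (by omega)]
        exact hkk
  · rw [h0_sweep hp ht, h0_sweep hp' ht]
    exact mod_ne hk hk' hkk
  · rw [h0_else (by omega) (by omega), h0_else (by omega) (by omega)]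
    exact hkk

theorem ne11 {n p q p' q' r : ℕ} (hp : p < n) (hq : q < n) (hp' : p' < n) (hq' : q' < n)
    (hne : ¬ (p = p' ∧ q = q')) (hr : ¬ (r = ae n + q ∧ q = q')) :
    h1 n p q r ≠ h1 n p' q' r := by
  have hk := key_lt hp hq
  have hk' := key_lt hp' hq'
  have hkk : n * p + q ≠ n * p' + q' := fun he => hne (key_unique hq hq' he)
  have hyy : n * q + p ≠ n * q' + p' := fun he => hne (key_unique hp hp' he).symm
  rcases kinds n r with hr' | ⟨t, ht, rfl⟩ | hr'
  · rw [h1_early hr', h1_early hr']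
    omega
  · rw [h1_sweep ht, h1_sweep ht]
    exact mod_ne hk hk' hkk
  · by_cases g1 : r = ae n + q
    · by_cases g2 : r = ae n + q'
      · omega
      · rw [h1_late g2 hr', g1, h1_end]
        intro he
        have := key_unique (n := n) (x := q) (y := 0) (z := q') (w := p') (by omega) hp'
          (by omega)
        omega
    · by_cases g2 : r = ae n + q'
      · rw [h1_late g1 hr', g2, h1_end]
        intro he
        have := key_unique (n := n) (x := q) (y := p) (z := q') (w := 0) hp (by omega)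
          (by omega)
        omega
      · rw [h1_late g1 hr', h1_late g2 hr']
        omega

theorem ne01 {n p q p' q' : ℕ} (hp : p < n) (hq : q < n) (hp' : p' < n) (hq' : q' < n) (r : ℕ) :
    h0 n p q r ≠ h1 n p' q' r := by
  by_cases h : p ≤ p' ∨ q ≤ q'
  · exact (shift_lt hp hq hq' h r).ne
  · obtain ⟨g1, g2⟩ := shift_act (n := n) (p := p') (p' := p) (q := q') (q' := q) (by omega) hp
      (by omega) hq
    by_cases hr : n + (n * p' + (n - q)) < r ∧ r < n + (n * p + (n - q'))
    · obtain ⟨t, rfl⟩ := Nat.exists_eq_add_of_le (show n ≤ r by omega)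
      have hpn : n * p + (n - q') ≤ n * n := by
        have := Nat.mul_le_mul_left n (show p + 1 ≤ n by omega)
        rw [mul_add] at this
        omega
      exact (g1 t (by omega) (by omega)).ne'
    · exact (g2 r hr).ne

theorem vl_lt {n : ℕ} {e f : ℕ × ℕ} {x : ℕ} (h : hgt n e.1 e.2 x < hgt n f.1 f.2 x) :
    vl n e x < vl n f x := Nat.pow_lt_pow_right (one_lt_bs n x) h

theorem vl_eq {n : ℕ} {e f : ℕ × ℕ} {x : ℕ} (h : vl n e x = vl n f x) :
    hgt n e.1 e.2 x = hgt n f.1 f.2 x := Nat.pow_right_injective (one_lt_bs n x) h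

theorem vl_0 {n : ℕ} {e : ℕ × ℕ} {x : ℕ} (h : x < per n) :
    vl n e x = bs n x ^ h0 n e.1 e.2 x := by
  unfold vl
  rw [hgt_0 h]

theorem vl_1 {n : ℕ} {e : ℕ × ℕ} {x : ℕ} : vl n e (x + per n) = bs n x ^ h1 n e.1 e.2 x := by
  unfold vl
  rw [hgt_1, bs_per]

/-- The order of a strand of the first and a strand of the second turn. -/
theorem vl_01 {n : ℕ} {e f : ℕ × ℕ} {x : ℕ} (hx : x < per n)
    (h : h0 n e.1 e.2 x < h1 n f.1 f.2 x) : vl n e x < vl n f (x + per n) := by
  rw [vl_0 hx, vl_1]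
  exact Nat.pow_lt_pow_right (one_lt_bs n x) h

theorem vl_10 {n : ℕ} {e f : ℕ × ℕ} {x : ℕ} (hx : x < per n)
    (h : h1 n f.1 f.2 x < h0 n e.1 e.2 x) : vl n f (x + per n) < vl n e x := by
  rw [vl_0 hx, vl_1]
  exact Nat.pow_lt_pow_right (one_lt_bs n x) h

theorem vl_00 {n : ℕ} {e f : ℕ × ℕ} {x : ℕ} (hx : x < per n)
    (h : h0 n e.1 e.2 x < h0 n f.1 f.2 x) : vl n e x < vl n f x := by
  rw [vl_0 hx, vl_0 hx]
  exact Nat.pow_lt_pow_right (one_lt_bs n x) h

theorem vl_11 {n : ℕ} {e f : ℕ × ℕ} {x : ℕ}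
    (h : h1 n e.1 e.2 x < h1 n f.1 f.2 x) : vl n e (x + per n) < vl n f (x + per n) := by
  rw [vl_1, vl_1]
  exact Nat.pow_lt_pow_right (one_lt_bs n x) h

/-- The heights at the even nodes are small. -/
theorem vl_even {n : ℕ} {e : ℕ × ℕ} (h : Ok n e) {x : ℕ} (hx : x % 2 = 0) :
    vl n e x < big n := by
  unfold vl bs big
  rw [if_pos hx]
  exact Nat.pow_lt_pow_right (by norm_num) (hgt_lt h x)

/-- The heights at the odd nodes are far from each other. -/
theorem vl_odd {n : ℕ} {e f : ℕ × ℕ} {x y : ℕ} (hx : x % 2 = 1) (hy : y % 2 = 1)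
    (h : vl n e x < vl n f y) : (big n + 1) * vl n e x ≤ vl n f y := by
  have hb : bs n x = big n + 1 := by unfold bs; rw [if_neg (by omega)]
  have hb' : bs n y = big n + 1 := by unfold bs; rw [if_neg (by omega)]
  unfold vl at h ⊢
  rw [hb, hb'] at h ⊢
  have h2 : 1 < big n + 1 := by rw [← hb]; exact one_lt_bs n x
  have h1 := (Nat.pow_lt_pow_iff_right h2).1 h
  rw [← pow_succ']
  exact Nat.pow_le_pow_right (by omega) h1

theorem nd_nat (n : ℕ) (e : ℕ × ℕ) (x : ℕ) : nd n e (x : ℤ) = vl n e x := by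
  unfold nd
  rw [Int.toNat_natCast]

/-- The shift is one turn at most. -/
theorem shift_cases {n : ℕ} {e f : ℕ × ℕ} (he : Ok n e) (hf : Ok n f) {u : ℝ} {k : ℤ}
    (h1 : (e.1 : ℝ) ≤ u) (h2 : u ≤ fin n e) (h3 : (f.1 : ℝ) ≤ u + k * per n)
    (h4 : u + k * per n ≤ fin n f) : k = 0 ∨ k = 1 ∨ k = -1 := by
  have g1 : (fin n e : ℝ) < 2 * per n := by exact_mod_cast fin_lt he
  have g2 : (fin n f : ℝ) < 2 * per n := by exact_mod_cast fin_lt hf
  have g3 : (0 : ℝ) ≤ e.1 := Nat.cast_nonneg _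
  have g4 : (0 : ℝ) ≤ f.1 := Nat.cast_nonneg _
  have g5 : (0 : ℝ) < per n := by exact_mod_cast per_pos n
  have c8 : (k : ℝ) * per n < 2 * per n := by linarith
  have c9 : (-2 : ℝ) * per n < k * per n := by linarith
  have d1 : (k : ℝ) < 2 := lt_of_mul_lt_mul_right c8 g5.le
  have d2 : (-2 : ℝ) < k := lt_of_mul_lt_mul_right c9 g5.le
  have d3 : k < 2 := by exact_mod_cast d1
  have d4 : -2 < k := by exact_mod_cast d2
  omega

/-- The nodes of two strands are different, except for a common vertex. -/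
theorem node_ne {n : ℕ} {e f : ℕ × ℕ} (he : Ok n e) (hf : Ok n f) {k m : ℤ}
    (hk : k = 0 ∨ k = 1 ∨ k = -1) (hne : e ≠ f ∨ k ≠ 0)
    (h1 : (e.1 : ℤ) ≤ m) (h2 : m ≤ fin n e) (h3 : (f.1 : ℤ) ≤ m + k * per n)
    (h4 : m + k * per n ≤ fin n f) (hm : nd n e m = nd n f (m + k * per n)) :
    k = 0 ∧ ((m = e.1 ∧ e.1 = f.1) ∨ (m = fin n e ∧ e.2 = f.2)) := by
  have g1 := fin_lt he
  have g2 := fin_lt hf
  obtain ⟨x, rfl⟩ := Int.eq_ofNat_of_zero_le (show 0 ≤ m by omega)
  rcases hk with rfl | rfl | rfl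
  · refine ⟨rfl, ?_⟩
    have hne' : ¬ (e.1 = f.1 ∧ e.2 = f.2) := by
      rintro ⟨a1, a2⟩
      rcases hne with hne | hne
      · exact hne (Prod.ext a1 a2)
      · exact hne rfl
    rw [show (x : ℤ) + 0 * per n = x by ring, nd_nat, nd_nat] at hm
    have hm' := vl_eq (x := x) (by exact_mod_cast hm)
    by_cases hx : x < per n
    · rw [hgt_0 hx, hgt_0 hx] at hm'
      left
      by_contra hcon
      exact ne00 he.1 he.2 hf.1 hf.2 hne' (by omega) hm'
    · obtain ⟨y, rfl⟩ := Nat.exists_eq_add_of_le (show per n ≤ x by omega)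
      rw [Nat.add_comm, hgt_1, hgt_1] at hm'
      right
      by_contra hcon
      refine ne11 he.1 he.2 hf.1 hf.2 hne' ?_ hm'
      rintro ⟨a1, a2⟩
      apply hcon
      refine ⟨?_, a2⟩
      unfold fin
      rw [a1]
      push_cast
      ring
  · exfalso
    rw [show (x : ℤ) + 1 * per n = ((x + per n : ℕ) : ℤ) by push_cast; ring, nd_nat, nd_nat] at hm
    have hx : x < per n := by omega
    have hm' : vl n e x = vl n f (x + per n) := by exact_mod_cast hm
    rw [vl_0 hx, vl_1] at hm'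
    exact ne01 he.1 he.2 hf.1 hf.2 x (Nat.pow_right_injective (one_lt_bs n x) hm')
  · exfalso
    obtain ⟨y, hy⟩ := Int.eq_ofNat_of_zero_le (show 0 ≤ (x : ℤ) + -1 * per n by omega)
    have hx : (x : ℤ) = ((y + per n : ℕ) : ℤ) := by push_cast; linarith
    rw [hy, hx, nd_nat, nd_nat] at hm
    have hyp : y < per n := by omega
    have hm' : vl n e (y + per n) = vl n f y := by exact_mod_cast hm
    rw [vl_0 hyp, vl_1] at hm'
    exact ne01 hf.1 hf.2 he.1 he.2 y (Nat.pow_right_injective (one_lt_bs n y) hm').symm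

end Pool.Agent.KBip
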